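import Pool.Agent.H353R2.K8

open Complex MeasureTheory ProbabilityTheory Filter Topology Set
open scoped ContDiff FourierTransform

set_option linter.unusedSectionVars false

namespace H353

noncomputable section

/-- smooth steps: 0 for `t ≤ 0`, 1 for `t ≥ ε`, not necessarily monotone -/
structure ST (ε : ℝ) (f : ℝ → ℝ) : Prop where
  smooth : ContDiff ℝ ∞ f
  zero : ∀ t ≤ 0, f t = 0
  one : ∀ t, ε ≤ t → f t = 1

theorem ST.of_lt {ε : ℝ} {f : ℝ → ℝ} (hs : ContDiff ℝ ∞ f) (h0 : ∀ t < 0, f t = 0)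
    (h1 : ∀ t, ε < t → f t = 1) : ST ε f := by
  refine ⟨hs, ?_, ?_⟩
  · intro t ht
    have hc : IsClosed {t : ℝ | f t = 0} := isClosed_eq hs.continuous continuous_const
    have : closure (Iio (0:ℝ)) ⊆ {t : ℝ | f t = 0} := hc.closure_subset_iff.2 fun t ht => h0 t ht
    rw [closure_Iio] at this
    exact this ht
  · intro t ht
    have hc : IsClosed {t : ℝ | f t = 1} := isClosed_eq hs.continuous continuous_const
    have : closure (Ioi ε) ⊆ {t : ℝ | f t = 1} := hc.closure_subset_iff.2 fun t ht => h1 t ht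
    rw [closure_Ioi] at this
    exact this ht

theorem Ph_ST (ε : ℝ) (hε : 0 < ε) : ST ε (Ph ε) :=
  ⟨Ph_smooth ε, Ph_zero ε hε, Ph_one ε hε⟩

variable {ε : ℝ} {f : ℝ → ℝ}

theorem ST.tf (h : ST ε f) : TF ε (deriv f) := by
  refine ⟨(contDiff_infty_iff_deriv.1 h.smooth).2, fun t ht => ?_⟩
  by_cases h0 : t < 0
  · have h2 : f =ᶠ[𝓝 t] fun _ => 0 := by
      filter_upwards [Iio_mem_nhds h0] with x hx using h.zero x (le_of_lt hx)
    rw [h2.deriv_eq]; simp
  · have h1 : ε < t := by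
      by_contra h
      exact ht ⟨not_lt.1 h0, not_lt.1 h⟩
    have h2 : f =ᶠ[𝓝 t] fun _ => 1 := by
      filter_upwards [Ioi_mem_nhds h1] with x hx using h.one x (le_of_lt hx)
    rw [h2.deriv_eq]; simp

theorem ST.bdd (h : ST ε f) : ∃ C : ℝ, 1 ≤ C ∧ ∀ t, |f t| ≤ C := by
  obtain ⟨C, hC⟩ := (isCompact_Icc (a := (0:ℝ)) (b := ε)).exists_bound_of_continuousOn
    h.smooth.continuous.continuousOn
  refine ⟨max C 1, le_max_right _ _, fun t => ?_⟩
  by_cases h0 : t ≤ 0
  · rw [h.zero t h0]; simp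
  · by_cases h1 : ε ≤ t
    · rw [h.one t h1]; simp
    · exact (hC t ⟨(not_le.1 h0).le, (not_le.1 h1).le⟩).trans (le_max_left _ _)

theorem ST.exp_int (h : ST ε f) (s : ℂ) (hs : 0 < s.re) :
    Integrable (fun t : ℝ => (f t : ℂ) * cexp (-s * t)) := by
  obtain ⟨C, hC1, hC⟩ := h.bdd
  have h1 : IntegrableOn (fun t : ℝ => C * Real.exp (-s.re * t)) (Ioi 0) :=
    (integrableOn_exp_mul_Ioi (by linarith) 0).const_mul C
  have h2 : Integrable (indicator (Ioi 0) (fun t : ℝ => C * Real.exp (-s.re * t))) :=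
    h1.integrable_indicator measurableSet_Ioi
  refine h2.mono' ?_ (ae_of_all _ fun t => ?_)
  · have := h.smooth.continuous
    exact (by fun_prop : Continuous _).aestronglyMeasurable
  · rw [norm_mul, Complex.norm_real, Real.norm_eq_abs, Complex.norm_exp]
    have e : (-s * (t : ℂ)).re = -s.re * t := by simp
    rw [e]
    by_cases ht : 0 < t
    · rw [indicator_of_mem (show t ∈ Ioi 0 from ht)]
      exact mul_le_mul_of_nonneg_right (hC t) (Real.exp_pos _).le
    · rw [indicator_of_notMem (show t ∉ Ioi 0 from ht), h.zero t (not_lt.1 ht)]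
      simp

theorem ST.laplace (h : ST ε f) (s : ℂ) (hs : 0 < s.re) :
    ∫ t : ℝ, (f t : ℂ) * cexp (-s * t) = DD (deriv f) s / s := by
  have hs0 : s ≠ 0 := by
    rintro rfl
    simp at hs
  unfold DD
  have hd : ∀ x : ℝ, HasDerivAt (fun t : ℝ => (f t : ℂ)) ((deriv f x : ℝ) : ℂ) x := by
    intro x
    have := ((contDiff_infty_iff_deriv.1 h.smooth).1 x).hasDerivAt
    exact this.ofReal_comp
  have he : ∀ x : ℝ, HasDerivAt (fun t : ℝ => cexp (-s * t)) (-s * cexp (-s * x)) x := by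
    intro x
    have h1 : HasDerivAt (fun z : ℂ => cexp (-s * z)) (cexp (-s * x) * (-s * 1)) (x : ℂ) :=
      ((hasDerivAt_id (x : ℂ)).const_mul (-s)).cexp
    have h2 := h1.comp_ofReal
    convert h2 using 1
    ring
  have key := integral_mul_deriv_eq_deriv_mul_of_integrable (v := fun t : ℝ => cexp (-s * t))
    (u := fun t : ℝ => (f t : ℂ)) (v' := fun t => -s * cexp (-s * t))
    (u' := fun t => ((deriv f t : ℝ) : ℂ)) (fun x _ => hd x) (fun x _ => he x) ?_ ?_ ?_
  · rw [eq_div_iff hs0]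
    have e : ∫ t : ℝ, (f t : ℂ) * (-s * cexp (-s * t)) =
        -((∫ t : ℝ, (f t : ℂ) * cexp (-s * t)) * s) := by
      rw [← integral_mul_const, ← integral_neg]
      refine integral_congr_ae (ae_of_all _ fun t => ?_)
      ring
    rw [e] at key
    exact neg_injective key
  · have := (h.exp_int s hs).mul_const (-s)
    refine this.congr (ae_of_all _ fun t => ?_)
    simp only [Pi.mul_apply]
    ring
  · have := h.tf.integrable (fun t => cexp (-s * t)) (by fun_prop)
    exact this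
  · exact h.exp_int s hs

/-- Laplace transform of a step -/
def GF (f : ℝ → ℝ) (s : ℂ) : ℂ := DD (deriv f) s / s

theorem GF_decay (h : ST ε f) (k : ℕ) : ∃ C : ℝ, 0 < C ∧ ∀ s : ℂ, 0 < s.re →
    ‖s‖ ^ (k + 1) * ‖GF f s‖ ≤ C := by
  obtain ⟨C, hC, hb⟩ := TF.decay k h.tf
  refine ⟨C, hC, fun s hs => ?_⟩
  have hs0 : s ≠ 0 := by rintro rfl; simp at hs
  have hn : 0 < ‖s‖ := norm_pos_iff.2 hs0
  unfold GF
  rw [norm_div]
  calc ‖s‖ ^ (k + 1) * (‖DD (deriv f) s‖ / ‖s‖) = ‖s‖ ^ k * ‖DD (deriv f) s‖ := by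
        rw [pow_succ]
        field_simp
    _ ≤ C := hb s hs.le

theorem GF_diffAt (h : ST ε f) (s : ℂ) (hs : s ≠ 0) : DifferentiableAt ℂ (GF f) s := by
  unfold GF
  exact (h.tf.diff s).div differentiableAt_id hs

theorem GF_line_cont (h : ST ε f) (c : ℝ) (hc : 0 < c) : Continuous (fun ξ => GF f (ln c ξ)) := by
  rw [continuous_iff_continuousAt]
  intro ξ
  exact ContinuousAt.comp (f := ln c) (g := GF f) (GF_diffAt h _ (ln_ne c ξ hc)).continuousAt
    (ln_cont c).continuousAt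

theorem GF_line_le (h : ST ε f) (c : ℝ) (hc : 0 < c) : ∃ C : ℝ, 0 < C ∧ ∀ ξ : ℝ,
    ‖GF f (ln c ξ)‖ ≤ C * (1 + ξ ^ 2)⁻¹ := by
  obtain ⟨C, hC, hb⟩ := GF_decay h 1
  have hm : 0 < min (c ^ 2) 1 := lt_min (by positivity) one_pos
  refine ⟨C / min (c ^ 2) 1, by positivity, fun ξ => ?_⟩
  have h1 := hb (ln c ξ) (by rw [ln_re]; exact hc)
  have h2 := ln_lower c ξ
  norm_num at h1
  have h3 : (min (c ^ 2) 1) * (1 + ξ ^ 2) * ‖GF f (ln c ξ)‖ ≤ C :=
    (mul_le_mul_of_nonneg_right h2 (norm_nonneg _)).trans h1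
  have h4 : 0 < 1 + ξ ^ 2 := by positivity
  rw [← div_eq_mul_inv, le_div_iff₀ h4, le_div_iff₀ hm]
  linarith

theorem GF_int (h : ST ε f) (c : ℝ) (hc : 0 < c) :
    Integrable (fun ξ => GF f (ln c ξ)) := by
  obtain ⟨C, hC, hb⟩ := GF_line_le h c hc
  exact (integrable_inv_one_add_sq.const_mul C).mono' (GF_line_cont h c hc).aestronglyMeasurable
    (ae_of_all _ hb)

theorem ST.inv (h : ST ε f) (t : ℝ) :
    ∫ ξ : ℝ, GF f (ln 2 ξ) * cexp (ln 2 ξ * t) = (f t : ℂ) := by
  set g : ℝ → ℂ := fun t => (f t : ℂ) * cexp (-2 * t) with hg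
  have hfc : Continuous g := by
    have := h.smooth.continuous
    rw [hg]; fun_prop
  have hfi : Integrable g := by
    have := h.exp_int 2 (by norm_num)
    exact this
  have hF : 𝓕 g = fun ξ => GF f (ln 2 ξ) := by
    funext ξ
    rw [Real.fourier_real_eq_integral_exp_smul]
    unfold GF
    rw [← h.laplace _ (by rw [ln_re]; norm_num)]
    refine integral_congr_ae (ae_of_all _ fun v => ?_)
    simp only [hg, smul_eq_mul, ln]
    rw [mul_left_comm, ← Complex.exp_add]
    congr 2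
    push_cast
    ring
  have h1 : 𝓕⁻ (𝓕 g) = g := Continuous.fourierInv_fourier_eq hfc hfi (by
    rw [hF]; exact GF_int h 2 (by norm_num))
  have h2 := congrFun h1 t
  rw [hF, Real.fourierInv_eq'] at h2
  have h3 : (∫ ξ : ℝ, GF f (ln 2 ξ) * cexp (ln 2 ξ * t)) = (∫ v : ℝ, cexp (((2 * Real.pi * inner ℝ v t : ℝ) : ℂ) * I) • GF f (ln 2 v)) *
      cexp (2 * t) := by
    rw [← integral_mul_const]
    refine integral_congr_ae (ae_of_all _ fun v => ?_)
    simp only [smul_eq_mul, ln]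
    have e : cexp (((2 : ℝ) + ((2 * Real.pi * v : ℝ) : ℂ) * I) * t) =
        cexp (((2 * Real.pi * inner ℝ v t : ℝ) : ℂ) * I) * cexp (2 * t) := by
      rw [← Complex.exp_add]
      congr 1
      simp
      ring
    rw [e]
    ring
  rw [h3, h2]
  simp only [hg]
  rw [mul_assoc, ← Complex.exp_add]
  have : (-2 * (t:ℂ) + 2 * t) = 0 := by ring
  rw [this]
  simp

section avg

variable {ι : Type*} [Countable ι] (b h : ι → ℝ) (h0 : ∀ i, 0 ≤ h i) (hs : Summable h)

include h0 hs in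
theorem Av_ST (hf : ST ε f) : ST (ε + ∑' i, h i) (Av b h f) := by
  obtain ⟨C, _, hC⟩ := hf.bdd
  obtain ⟨C', hC'⟩ := TF_bdd hf.tf
  have hd : ∀ t, HasDerivAt (Av b h f) (Av b h (deriv f) t) t := fun t =>
    Av_deriv b h h0 hs f hf.smooth C C' hC hC' t
  refine ⟨?_, ?_, ?_⟩
  · rw [contDiff_infty_iff_deriv]
    refine ⟨fun t => (hd t).differentiableAt, ?_⟩
    have e : deriv (Av b h f) = Av b h (deriv f) := by
      funext t
      exact (hd t).deriv
    rw [e, contDiff_infty]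
    exact fun n => Av_TF_smooth b h h0 hs n hf.tf
  · intro t ht
    unfold Av
    have : ∀ w, f (t - XX h w) = 0 := fun w =>
      hf.zero _ (by linarith [XX_nonneg h h0 w])
    simp [this]
  · intro t ht
    unfold Av
    have : ∀ w, f (t - XX h w) = 1 := fun w =>
      hf.one _ (by linarith [XX_le h h0 hs w])
    simp [this]

include h0 hs in
theorem Av_mono (hf : ST ε f) (hm : Monotone f) : Monotone (Av b h f) := by
  obtain ⟨C, _, hC⟩ := hf.bdd
  intro s t hst
  refine integral_mono (Av_int b h h0 hs _ hf.smooth.continuous C hC s)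
    (Av_int b h h0 hs _ hf.smooth.continuous C hC t) fun w => ?_
  exact hm (by linarith)

include h0 hs in
theorem Av_inv (hf : ST ε f) (t : ℝ) :
    ∫ ξ : ℝ, GF f (ln 2 ξ) * KK b h (ln 2 ξ) * cexp (ln 2 ξ * t) = (Av b h f t : ℂ) := by
  have hXm := XX_meas h h0 hs
  have hG := GF_int hf 2 (by norm_num)
  have hGc := GF_line_cont hf 2 (by norm_num)
  have e1 : (Av b h f t : ℂ) =
      ∫ w, (∫ ξ : ℝ, GF f (ln 2 ξ) * cexp (ln 2 ξ * ((t - XX h w : ℝ) : ℂ))) ∂(PP b h) := by
    unfold Av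
    rw [← integral_complex_ofReal]
    refine integral_congr_ae (ae_of_all _ fun w => ?_)
    exact (hf.inv _).symm
  rw [e1, integral_integral_swap]
  · refine integral_congr_ae (ae_of_all _ fun ξ => ?_)
    simp only
    unfold KK
    rw [mul_assoc, mul_comm (∫ w, _ ∂_), ← integral_const_mul, ← integral_const_mul]
    refine integral_congr_ae (ae_of_all _ fun w => ?_)
    simp only
    rw [← Complex.exp_add]
    congr 2
    push_cast
    ring
  · have hdom : Integrable (fun p : (ι → Bool) × ℝ => ‖GF f (ln 2 p.2)‖ * Real.exp (2 * t)) ((PP b h).prod volume) := by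
      have := (hG.norm.mul_const (Real.exp (2 * t))).comp_snd (PP b h)
      exact this
    refine hdom.mono' ?_ (ae_of_all _ fun p => ?_)
    · refine Measurable.aestronglyMeasurable ?_
      have m1 : Measurable (fun p : (ι → Bool) × ℝ => GF f (ln 2 p.2)) := hGc.measurable.comp measurable_snd
      have m2 : Measurable (fun p : (ι → Bool) × ℝ => ln 2 p.2) := (ln_cont 2).measurable.comp measurable_snd
      have m3 : Measurable (fun p : (ι → Bool) × ℝ => XX h p.1) := hXm.comp measurable_fst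
      show Measurable (fun p : (ι → Bool) × ℝ => GF f (ln 2 p.2) * cexp (ln 2 p.2 * ((t - XX h p.1 : ℝ) : ℂ)))
      fun_prop
    · show ‖GF f (ln 2 p.2) * cexp (ln 2 p.2 * ((t - XX h p.1 : ℝ) : ℂ))‖ ≤ _
      rw [norm_mul]
      refine mul_le_mul_of_nonneg_left ?_ (norm_nonneg _)
      rw [Complex.norm_exp, Complex.re_mul_ofReal, ln_re]
      refine Real.exp_le_exp.2 ?_
      linarith [XX_nonneg h h0 p.1]

include h0 hs in
theorem gen_formulaF (hf : ST ε f) (t : ℝ) (a : ℕ → ℝ) (ha0 : a 0 = 0)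
    (hsum : Summable (fun n : ℕ => |a n| / (n : ℝ) ^ 2)) :
    ((∑' n : ℕ, a n * Av b h f (t - Real.log n) : ℝ) : ℂ) =
      ∫ ξ : ℝ, GF f (ln 2 ξ) * KK b h (ln 2 ξ) * cexp (ln 2 ξ * t) *
      LSeries (fun n => (a n : ℂ)) (ln 2 ξ) := by
  have hG := GF_int hf 2 (by norm_num)
  have hGc := GF_line_cont hf 2 (by norm_num)
  have hKc := KK_line_cont b h h0 hs 2
  have hlc := ln_cont 2
  set F : ℕ → ℝ → ℂ := fun n ξ => (a n : ℂ) *
    (GF f (ln 2 ξ) * KK b h (ln 2 ξ) * cexp (ln 2 ξ * ((t - Real.log n : ℝ) : ℂ))) with hF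
  set B : ℕ → ℝ → ℝ := fun n ξ => ‖GF f (ln 2 ξ)‖ * (Real.exp (2 * t) * (|a n| / (n : ℝ) ^ 2)) with hB
  have hBi : ∀ n, Integrable (B n) := fun n => hG.norm.mul_const _
  have hFB : ∀ n ξ, ‖F n ξ‖ ≤ B n ξ := by
    intro n ξ
    by_cases hn : n = 0
    · rw [hF]
      simp only [hn, ha0, Complex.ofReal_zero, zero_mul, norm_zero]
      rw [hB]
      positivity
    · have hn0 : (0:ℝ) < n := by exact_mod_cast Nat.pos_of_ne_zero hn
      have hK : ‖KK b h (ln 2 ξ)‖ ≤ 1 := KK_norm b h h0 _ (by rw [ln_re]; norm_num)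
      have he : ‖cexp (ln 2 ξ * ((t - Real.log n : ℝ) : ℂ))‖ = Real.exp (2 * t) * (1 / (n : ℝ) ^ 2) := by
        rw [Complex.norm_exp, Complex.re_mul_ofReal, ln_re, mul_sub, Real.exp_sub,
          show (2:ℝ) * Real.log n = Real.log ((n:ℝ) ^ 2) by rw [Real.log_pow]; norm_num,
          Real.exp_log (by positivity)]
        ring
      rw [hF, hB]
      simp only [norm_mul, Complex.norm_real, Real.norm_eq_abs]
      rw [he]
      have hG0 := norm_nonneg (GF f (ln 2 ξ))
      have hp : 0 ≤ Real.exp (2 * t) * (1 / (n : ℝ) ^ 2) := by positivity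
      have hab := abs_nonneg (a n)
      calc |a n| * (‖GF f (ln 2 ξ)‖ * ‖KK b h (ln 2 ξ)‖ *
            (Real.exp (2 * t) * (1 / (n : ℝ) ^ 2)))
          ≤ |a n| * (‖GF f (ln 2 ξ)‖ * 1 * (Real.exp (2 * t) * (1 / (n : ℝ) ^ 2))) := by gcongr
        _ = _ := by ring
  have hFi : ∀ n, Integrable (F n) := by
    intro n
    refine (hBi n).mono' ?_ (ae_of_all _ (hFB n))
    exact (by rw [hF]; fun_prop : Continuous (F n)).aestronglyMeasurable
  have hsum' : Summable (fun n => ∫ ξ, ‖F n ξ‖) := by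
    refine Summable.of_nonneg_of_le (fun n => integral_nonneg fun _ => norm_nonneg _)
      (fun n => integral_mono (hFi n).norm (hBi n) (hFB n)) ?_
    have e : (fun n : ℕ => ∫ ξ, B n ξ) = fun n : ℕ => (∫ ξ, ‖GF f (ln 2 ξ)‖) * Real.exp (2 * t) * (|a n| / (n : ℝ) ^ 2) := by
      funext n
      rw [hB]
      simp only
      rw [integral_mul_const]
      ring
    rw [e]
    exact hsum.mul_left _
  have key := integral_tsum_of_summable_integral_norm hFi hsum'
  have e1 : ∀ n, ∫ ξ, F n ξ = ((a n * Av b h f (t - Real.log n) : ℝ) : ℂ) := by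
    intro n
    rw [hF]
    simp only
    rw [integral_const_mul, Av_inv b h h0 hs hf]
    push_cast
    rfl
  have e2 : ∀ ξ, ∑' n, F n ξ = GF f (ln 2 ξ) * KK b h (ln 2 ξ) * cexp (ln 2 ξ * t) *
      LSeries (fun n => (a n : ℂ)) (ln 2 ξ) := by
    intro ξ
    rw [LSeries, ← tsum_mul_left]
    refine tsum_congr fun n => ?_
    rw [hF]
    simp only
    by_cases hn : n = 0
    · simp [hn, ha0]
    · rw [LSeries.term_of_ne_zero hn]
      have hnc : (n : ℂ) ≠ 0 := by exact_mod_cast hn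
      have e3 : cexp (ln 2 ξ * ((t - Real.log n : ℝ) : ℂ)) = cexp (ln 2 ξ * t) / (n : ℂ) ^ (ln 2 ξ) := by
        rw [Complex.cpow_def_of_ne_zero hnc, ← Complex.exp_sub]
        congr 1
        rw [← Complex.natCast_log]
        push_cast
        ring
      rw [e3]
      ring
  simp_rw [e1, e2] at key
  rw [← key, Complex.ofReal_tsum]

end avg

end

end H353
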