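import Pool.Agent.H353R3.S1

open Complex MeasureTheory ProbabilityTheory Filter Topology Set Metric
open scoped ContDiff

set_option linter.unusedSectionVars false

namespace H353

noncomputable section

/-- functions of polynomial growth vanishing at the zeros with real part at least `σ` -/
structure Kill (σ : ℝ) (K : ℂ → ℂ) : Prop where
  diff : Differentiable ℂ K
  bound : ∃ D : ℝ, ∃ m : ℕ, 0 < D ∧ ∀ s : ℂ, 0 ≤ s.re → ‖K s‖ ≤ D * (1 + ‖s‖) ^ m
  order : ∀ ρ : ℂ, FF ρ = 0 → σ ≤ ρ.re → analyticOrderAt FF ρ ≤ analyticOrderAt K ρ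

theorem Kill.le {σ : ℝ} {K : ℂ → ℂ} (hK : Kill σ K) (θ : ℝ) (h1 : 1 / 2 < σ) (h2 : σ < θ) (h3 : θ < 1)
    (D : ℝ) (m : ℕ) (hD : 0 < D) (hb : ∀ s : ℂ, 0 ≤ s.re → ‖K s‖ ≤ D * (1 + ‖s‖) ^ m)
    (v : ℂ) (hv : θ ≤ v.re)
    (hv2 : v.re ≤ 2) :
    ‖K v‖ ≤ (D * (5 + |v.im|) ^ m) * (‖FF v‖ *
      (2 * (2 * ((1 + 2 / σ) * (5 + |v.im|) ^ 2)) ^ (2 * (2 - θ) / (θ - σ)))) := by
  classical
  set c : ℂ := 2 + v.im * I with hc
  have hcre : c.re = 2 := by simp [hc]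
  have hcim : c.im = v.im := by simp [hc]
  have hcn : ‖c‖ ≤ 2 + |v.im| := by
    have := Complex.norm_le_abs_re_add_abs_im c
    rw [hcre, hcim] at this
    simpa using this
  set M : ℝ := (1 + 2 / σ) * (5 + |v.im|) ^ 2 with hM
  have hσ : 0 < σ := by linarith
  have habs := abs_nonneg v.im
  have hfin := zeros_finite (closedBall c (2 - σ)) (isCompact_closedBall c (2 - σ))
  have hFc : 1 / 2 ≤ ‖FF c‖ := FF_lower c (by rw [hcre])
  have hFc0 : 0 < ‖FF c‖ := by linarith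
  set G : ℝ := D * (5 + |v.im|) ^ m with hG
  have hG0 : 0 < G := by positivity
  have hGc : (G : ℂ) ≠ 0 := by exact_mod_cast hG0.ne'
  have hre : ∀ w : ℂ, ∀ R : ℝ, w ∈ closedBall c R → 2 - R ≤ w.re := by
    intro w R hw
    rw [mem_closedBall, dist_eq_norm] at hw
    have := (Complex.abs_re_le_norm (w - c)).trans hw
    rw [Complex.sub_re, hcre] at this
    linarith [(abs_le.1 this).1]
  have hwn' : ∀ w ∈ closedBall c (2 - σ / 2), ‖w‖ ≤ 4 + |v.im| := by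
    intro w hw'
    have : ‖w‖ ≤ ‖w - c‖ + ‖c‖ := by
      simpa using norm_add_le (w - c) c
    rw [mem_closedBall, dist_eq_norm] at hw'
    linarith
  have key := quot_bound univ isOpen_univ FF (fun s => (G : ℂ)⁻¹ * K s) (ZU.J_g2b.FF_diff.differentiableOn)
    ((hK.diff.const_mul _).differentiableOn) c (2 - θ) (2 - σ) (2 - σ / 2) M (by linarith)
    (by linarith) (by linarith) (subset_univ _) ?_ ?_ (by rw [← norm_pos_iff]; exact hFc0)
    hfin.toFinset mu ?_ ?_ ?_ ?_ v ?_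
  · have hMpos : 1 ≤ 2 * M := by
      have : (1:ℝ) ≤ 1 + 2 / σ := by
        have : 0 < 2 / σ := by positivity
        linarith
      rw [hM]
      nlinarith [habs, mul_nonneg habs habs]
    have hlog : Real.log (M / ‖FF c‖) ≤ Real.log (2 * M) := by
      have hMp : 0 < M := by linarith
      refine Real.log_le_log (by positivity) ?_
      rw [div_le_iff₀ hFc0]
      nlinarith
    have hexp : Real.exp (2 * Real.log (M / ‖FF c‖) * (2 - θ) / (2 - σ - (2 - θ))) ≤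
        (2 * M) ^ (2 * (2 - θ) / (θ - σ)) := by
      rw [Real.rpow_def_of_pos (by linarith)]
      refine Real.exp_le_exp.2 ?_
      have e1 : 2 - σ - (2 - θ) = θ - σ := by ring
      rw [e1]
      have hk : 0 ≤ 2 * (2 - θ) / (θ - σ) := div_nonneg (by linarith) (by linarith)
      calc 2 * Real.log (M / ‖FF c‖) * (2 - θ) / (θ - σ)
          = Real.log (M / ‖FF c‖) * (2 * (2 - θ) / (θ - σ)) := by ring
        _ ≤ Real.log (2 * M) * (2 * (2 - θ) / (θ - σ)) := mul_le_mul_of_nonneg_right hlog hk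
    have hF0 := norm_nonneg (FF v)
    have hP : 0 ≤ (2 * M) ^ (2 * (2 - θ) / (θ - σ)) := Real.rpow_nonneg (by linarith) _
    simp only [norm_mul, norm_inv, Complex.norm_real, Real.norm_eq_abs, abs_of_pos hG0] at key
    have hKn : 0 ≤ G⁻¹ * ‖K v‖ := by positivity
    have step : (G⁻¹ * ‖K v‖) * (1 / 2) ≤ ‖FF v‖ * (2 * M) ^ (2 * (2 - θ) / (θ - σ)) :=
      calc (G⁻¹ * ‖K v‖) * (1 / 2) ≤ (G⁻¹ * ‖K v‖) * ‖FF c‖ := mul_le_mul_of_nonneg_left hFc hKn
        _ ≤ _ := key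
        _ ≤ _ := mul_le_mul_of_nonneg_left hexp hF0
    have step2 : G⁻¹ * ‖K v‖ ≤ ‖FF v‖ * (2 * (2 * M) ^ (2 * (2 - θ) / (θ - σ))) := by linarith
    calc ‖K v‖ = G * (G⁻¹ * ‖K v‖) := by field_simp
      _ ≤ _ := mul_le_mul_of_nonneg_left step2 hG0.le
  · intro w hw
    have hw' : w ∈ closedBall c (2 - σ / 2) := sphere_subset_closedBall hw
    have r1 := hre w _ hw'
    have b := FF_bound (σ / 2) (by linarith) w (by linarith)
    have hwn := hwn' w hw'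
    refine b.trans ?_
    rw [hM]
    have e : (1 + 1 / (σ / 2)) = 1 + 2 / σ := by field_simp
    rw [e]
    have hw0 := norm_nonneg w
    have : 0 < 2 / σ := by positivity
    refine mul_le_mul_of_nonneg_left ?_ (by linarith)
    exact pow_le_pow_left₀ (by linarith) (by linarith) 2
  · intro w hw
    have hw'' : w ∈ closedBall c (2 - σ / 2) := sphere_subset_closedBall hw
    have b1 := hb w (by have := hre w _ hw''; linarith)
    have hwn := hwn' w hw''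
    rw [norm_mul, norm_inv, Complex.norm_real, Real.norm_eq_abs, abs_of_pos hG0]
    rw [inv_mul_le_iff₀ hG0, mul_one]
    refine b1.trans ?_
    rw [hG]
    have := norm_nonneg w
    have h6 : (1 + ‖w‖) ^ m ≤ (5 + |v.im|) ^ m := pow_le_pow_left₀ (by linarith) (by linarith) m
    exact mul_le_mul_of_nonneg_left h6 hD.le
  · intro ρ hρ
    rw [Set.Finite.mem_toFinset] at hρ
    exact hρ.2
  · intro ρ _
    exact mu_cast ρ
  · intro ρ hρ
    rw [Set.Finite.mem_toFinset] at hρ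
    rw [mu_cast]
    have h5 := hK.order ρ hρ.1 (by have := hre ρ _ hρ.2; linarith)
    refine h5.trans ?_
    have e : (fun s => (G : ℂ)⁻¹ * K s) = (fun _ => (G : ℂ)⁻¹) * K := by
      funext s; rfl
    rw [e, analyticOrderAt_mul analyticAt_const (hK.diff.analyticAt ρ)]
    exact le_add_left le_rfl
  · intro w hw hwS h0
    exact hwS ((Set.Finite.mem_toFinset hfin).2 ⟨h0, hw⟩)
  · rw [mem_closedBall, dist_eq_norm]
    have e : v - c = ((v.re - 2 : ℝ) : ℂ) := by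
      rw [hc]
      apply Complex.ext <;> simp
    rw [e, Complex.norm_real, Real.norm_eq_abs, abs_of_nonpos (by linarith)]
    linarith

theorem Kill.exists_H {σ : ℝ} {K : ℂ → ℂ} (hK : Kill σ K) (θ : ℝ) (h1 : 1 / 2 < σ) (h2 : σ < θ)
    (h3 : θ < 1) :
    ∃ H : ℂ → ℂ, ∃ D : ℝ, ∃ N : ℕ, 0 < D ∧ (∀ s : ℂ, σ < s.re → DifferentiableAt ℂ H s) ∧
      (∀ s : ℂ, σ < s.re → K s = FF s * H s) ∧
      ∀ s : ℂ, θ ≤ s.re → s.re ≤ 2 → ‖H s‖ ≤ D * ‖s‖ ^ N := by
  obtain ⟨D1, m, hD1, hb1⟩ := hK.bound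
  obtain ⟨H, hH, hKH⟩ := exists_quot {s : ℂ | σ < s.re} FF K ZU.J_g2b.FF_diff
    hK.diff FF_order_ne_top
    (fun ρ hρ h0 => hK.order ρ h0 (le_of_lt hρ))
  set κ : ℝ := 2 * (2 - θ) / (θ - σ) with hκ
  have hκ0 : 0 ≤ κ := div_nonneg (by linarith) (by linarith)
  have hσ : 0 < σ := by linarith
  set Q : ℝ → ℝ := fun y => (D1 * (5 + |y|) ^ m) * (2 * (2 * ((1 + 2 / σ) * (5 + |y|) ^ 2)) ^ κ) with hQ
  have hQc : Continuous Q := by
    rw [hQ]
    refine (by fun_prop : Continuous fun y : ℝ => D1 * (5 + |y|) ^ m).mul (continuous_const.mul ?_)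
    refine Continuous.rpow_const (by fun_prop) fun y => Or.inr hκ0
  have hbase : ∀ s : ℂ, θ ≤ s.re → s.re ≤ 2 → FF s ≠ 0 → ‖H s‖ ≤ Q s.im := by
    intro s hs1 hs2 h0
    have h4 := hK.le θ h1 h2 h3 D1 m hD1 hb1 s hs1 hs2
    rw [hKH s (show σ < s.re by linarith), norm_mul] at h4
    refine le_of_mul_le_mul_left (h4.trans (le_of_eq ?_)) (norm_pos_iff.2 h0)
    rw [hQ]
    ring
  have hall : ∀ s : ℂ, θ ≤ s.re → s.re ≤ 2 → ‖H s‖ ≤ Q s.im := by
    intro s hs1 hs2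
    have hev : ∀ᶠ w in 𝓝[≠] s, FF w ≠ 0 := by
      rcases (FF_anal s).eventually_eq_zero_or_eventually_ne_zero with h | h
      · exact absurd (analyticOrderAt_eq_top.2 h) (FF_order_ne_top s)
      · exact h
    have hpath : Tendsto (fun η : ℝ => s + (η : ℂ) * I) (𝓝[≠] 0) (𝓝[≠] s) := by
      refine tendsto_nhdsWithin_iff.2 ⟨?_, ?_⟩
      · have : Continuous (fun η : ℝ => s + (η : ℂ) * I) := by fun_prop
        have h := this.tendsto 0
        simp only [ofReal_zero, zero_mul, add_zero] at h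
        exact h.mono_left nhdsWithin_le_nhds
      · filter_upwards [self_mem_nhdsWithin] with η hη
        have hη0 : (η : ℂ) ≠ 0 := by exact_mod_cast hη
        simp only [mem_compl_iff, mem_singleton_iff, add_eq_left, mul_eq_zero, not_or]
        exact ⟨hη0, Complex.I_ne_zero⟩
    have hHs : Tendsto (fun η : ℝ => ‖H (s + (η : ℂ) * I)‖) (𝓝[≠] 0) (𝓝 ‖H s‖) := by
      have : Tendsto H (𝓝[≠] s) (𝓝 (H s)) :=
        (hH s (show σ < s.re by linarith)).continuousAt.tendsto.mono_left nhdsWithin_le_nhds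
      exact (this.comp hpath).norm
    have hQs : Tendsto (fun η : ℝ => Q (s.im + η)) (𝓝[≠] 0) (𝓝 (Q s.im)) := by
      have : Continuous (fun η : ℝ => Q (s.im + η)) := by fun_prop
      have h := this.tendsto 0
      simp only [add_zero] at h
      exact h.mono_left nhdsWithin_le_nhds
    refine le_of_tendsto_of_tendsto hHs hQs ?_
    filter_upwards [hpath.eventually hev] with η hη
    have := hbase (s + (η : ℂ) * I) (by simpa using hs1) (by simpa using hs2) hη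
    simpa using this
  set D0 : ℝ := 2 * (1 + 2 / σ) * 121 with hD0
  have hD0p : 242 ≤ D0 := by
    have : 0 < 2 / σ := by positivity
    rw [hD0]; nlinarith
  refine ⟨H, (D1 * 11 ^ m) * (2 * D0 ^ ⌈κ⌉₊), m + 2 * ⌈κ⌉₊, by positivity,
    fun s hs => (hH s hs).differentiableAt, hKH, ?_⟩
  intro s hs1 hs2
  refine (hall s hs1 hs2).trans ?_
  have hn : 1 / 2 ≤ ‖s‖ := by
    have := (le_abs_self s.re).trans (Complex.abs_re_le_norm s)
    linarith
  have hn0 : 0 < ‖s‖ := by linarith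
  have him := Complex.abs_im_le_norm s
  have h50 : 5 + |s.im| ≤ 11 * ‖s‖ := by linarith
  have h5 : 2 * ((1 + 2 / σ) * (5 + |s.im|) ^ 2) ≤ D0 * ‖s‖ ^ 2 := by
    have h6 : (5 + |s.im|) ^ 2 ≤ (11 * ‖s‖) ^ 2 :=
      pow_le_pow_left₀ (by positivity) (by linarith) 2
    have : 0 < 2 / σ := by positivity
    rw [hD0]
    nlinarith
  have h7 : 0 ≤ 2 * ((1 + 2 / σ) * (5 + |s.im|) ^ 2) := by positivity
  have h8 : 1 ≤ D0 * ‖s‖ ^ 2 := by nlinarith
  have h9 : 2 * (2 * ((1 + 2 / σ) * (5 + |s.im|) ^ 2)) ^ κ ≤ 2 * D0 ^ ⌈κ⌉₊ * ‖s‖ ^ (2 * ⌈κ⌉₊) := by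
    calc 2 * (2 * ((1 + 2 / σ) * (5 + |s.im|) ^ 2)) ^ κ ≤ 2 * (D0 * ‖s‖ ^ 2) ^ κ := by
          have := Real.rpow_le_rpow h7 h5 hκ0
          linarith
      _ ≤ 2 * (D0 * ‖s‖ ^ 2) ^ ((⌈κ⌉₊ : ℕ) : ℝ) := by
          have := Real.rpow_le_rpow_of_exponent_le h8 (Nat.le_ceil κ)
          linarith
      _ = 2 * D0 ^ ⌈κ⌉₊ * ‖s‖ ^ (2 * ⌈κ⌉₊) := by
          rw [Real.rpow_natCast, mul_pow, ← pow_mul]
          ring
  have h10 : (5 + |s.im|) ^ m ≤ 11 ^ m * ‖s‖ ^ m := by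
    rw [← mul_pow]
    exact pow_le_pow_left₀ (by positivity) h50 m
  rw [hQ]
  simp only
  calc D1 * (5 + |s.im|) ^ m * (2 * (2 * ((1 + 2 / σ) * (5 + |s.im|) ^ 2)) ^ κ)
      ≤ D1 * (11 ^ m * ‖s‖ ^ m) * (2 * D0 ^ ⌈κ⌉₊ * ‖s‖ ^ (2 * ⌈κ⌉₊)) := by
        gcongr
    _ = _ := by ring

theorem KS_kill (σ : ℝ) (h1 : 1 / 2 < σ) (h2 : σ < 1) : Kill σ (KS σ) :=
  ⟨KS_diff σ h1 h2, ⟨1, 0, one_pos, fun s hs => by simpa using KS_norm σ s hs⟩,
    fun ρ h0 hre => KS_order σ h1 h2 ρ h0 hre⟩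

end

end H353
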