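import Pool.Agent.H353R3.S2

open Complex MeasureTheory ProbabilityTheory Filter Topology Set Metric
open scoped ContDiff

set_option linter.unusedSectionVars false

namespace H353

noncomputable section

/-- the quadratic factor vanishing at `ρ` and its conjugate, equal to 1 at 0 -/
def qf (ρ s : ℂ) : ℂ := 1 - ((2 * ρ.re / ‖ρ‖ ^ 2 : ℝ) : ℂ) * s + ((1 / ‖ρ‖ ^ 2 : ℝ) : ℂ) * s ^ 2

theorem qf_diff (ρ : ℂ) : Differentiable ℂ (qf ρ) := by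
  unfold qf
  fun_prop

theorem qf_vanish (ρ s : ℂ) (h0 : ρ ≠ 0) (hs : s = ρ ∨ s = starRingEnd ℂ ρ) : qf ρ s = 0 := by
  have hn : ((‖ρ‖ : ℝ) : ℂ) ≠ 0 := by
    have : ‖ρ‖ ≠ 0 := norm_ne_zero_iff.2 h0
    exact_mod_cast this
  have e1 : (((‖ρ‖ : ℝ) : ℂ)) ^ 2 = ρ * starRingEnd ℂ ρ := by
    rw [Complex.mul_conj, Complex.normSq_eq_norm_sq]
    push_cast
    rfl
  have e2 : ((2 * ρ.re : ℝ) : ℂ) = ρ + starRingEnd ℂ ρ := by
    rw [Complex.add_conj]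
  have e3 : qf ρ s * ((‖ρ‖ : ℝ) : ℂ) ^ 2 = (s - ρ) * (s - starRingEnd ℂ ρ) := by
    unfold qf
    have h5 : (((2 * ρ.re / ‖ρ‖ ^ 2 : ℝ) : ℂ)) * ((‖ρ‖ : ℝ) : ℂ) ^ 2 = ((2 * ρ.re : ℝ) : ℂ) := by
      push_cast
      field_simp
    have h6 : (((1 / ‖ρ‖ ^ 2 : ℝ) : ℂ)) * ((‖ρ‖ : ℝ) : ℂ) ^ 2 = 1 := by
      push_cast
      field_simp
    calc (1 - ((2 * ρ.re / ‖ρ‖ ^ 2 : ℝ) : ℂ) * s + ((1 / ‖ρ‖ ^ 2 : ℝ) : ℂ) * s ^ 2) * ((‖ρ‖ : ℝ) : ℂ) ^ 2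
        = ((‖ρ‖ : ℝ) : ℂ) ^ 2 - (((2 * ρ.re / ‖ρ‖ ^ 2 : ℝ) : ℂ) * ((‖ρ‖ : ℝ) : ℂ) ^ 2) * s +
          (((1 / ‖ρ‖ ^ 2 : ℝ) : ℂ) * ((‖ρ‖ : ℝ) : ℂ) ^ 2) * s ^ 2 := by ring
      _ = ρ * starRingEnd ℂ ρ - (ρ + starRingEnd ℂ ρ) * s + 1 * s ^ 2 := by rw [h5, h6, e1, e2]
      _ = _ := by ring
  have e4 : (s - ρ) * (s - starRingEnd ℂ ρ) = 0 := by
    rcases hs with h | h
    · rw [h]; ring
    · rw [h]; ring
  rw [e4] at e3
  rcases mul_eq_zero.1 e3 with h | h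
  · exact h
  · exact absurd h (pow_ne_zero 2 hn)

theorem qf_bound (ρ : ℂ) : ∃ D : ℝ, 0 < D ∧ ∀ s : ℂ, ‖qf ρ s‖ ≤ D * (1 + ‖s‖) ^ 2 := by
  refine ⟨1 + ‖((2 * ρ.re / ‖ρ‖ ^ 2 : ℝ) : ℂ)‖ + ‖((1 / ‖ρ‖ ^ 2 : ℝ) : ℂ)‖, by positivity, fun s => ?_⟩
  unfold qf
  set a := ‖((2 * ρ.re / ‖ρ‖ ^ 2 : ℝ) : ℂ)‖
  set b := ‖((1 / ‖ρ‖ ^ 2 : ℝ) : ℂ)‖
  have ha : 0 ≤ a := norm_nonneg _
  have hb : 0 ≤ b := norm_nonneg _
  have hs := norm_nonneg s
  calc _ ≤ ‖1 - ((2 * ρ.re / ‖ρ‖ ^ 2 : ℝ) : ℂ) * s‖ + ‖((1 / ‖ρ‖ ^ 2 : ℝ) : ℂ) * s ^ 2‖ := norm_add_le _ _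
    _ ≤ (‖(1:ℂ)‖ + ‖((2 * ρ.re / ‖ρ‖ ^ 2 : ℝ) : ℂ) * s‖) + ‖((1 / ‖ρ‖ ^ 2 : ℝ) : ℂ) * s ^ 2‖ := by
        gcongr
        exact norm_sub_le _ _
    _ = (1 + a * ‖s‖) + b * ‖s‖ ^ 2 := by
        rw [norm_one, norm_mul, norm_mul, norm_pow]
    _ ≤ (1 + a + b) * (1 + ‖s‖) ^ 2 := by
        nlinarith [mul_nonneg ha hs, mul_nonneg hb hs, mul_nonneg ha (mul_nonneg hs hs), mul_nonneg hs hs]

/-- the differential operator -/
def kp (c d : ℝ) (f : ℝ → ℝ) (t : ℝ) : ℝ := f t - c * deriv f t + d * deriv (deriv f) t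

theorem kp_ST {ε : ℝ} {f : ℝ → ℝ} (h : ST ε f) (c d : ℝ) : ST ε (kp c d f) := by
  have h1 : ContDiff ℝ ∞ (deriv f) := (contDiff_infty_iff_deriv.1 h.smooth).2
  have h2 : ContDiff ℝ ∞ (deriv (deriv f)) := (contDiff_infty_iff_deriv.1 h1).2
  have tf1 := h.tf
  have tf2 := h.tf.deriv
  refine ST.of_lt ?_ ?_ ?_
  · unfold kp
    have h0 := h.smooth
    fun_prop
  · intro t ht
    have hm : t ∉ Icc 0 ε := fun hm => absurd hm.1 (not_le.2 ht)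
    unfold kp
    rw [h.zero t ht.le, tf1.supp t hm, tf2.supp t hm]
    ring
  · intro t ht
    have hm : t ∉ Icc 0 ε := fun hm => absurd hm.2 (not_le.2 ht)
    unfold kp
    rw [h.one t ht.le, tf1.supp t hm, tf2.supp t hm]
    ring

theorem kp_DD {ε : ℝ} {f : ℝ → ℝ} (h : ST ε f) (c d : ℝ) (s : ℂ) :
    DD (deriv (kp c d f)) s = (1 - (c : ℂ) * s + (d : ℂ) * s ^ 2) * DD (deriv f) s := by
  have h1 : ContDiff ℝ ∞ (deriv f) := (contDiff_infty_iff_deriv.1 h.smooth).2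
  have h2 : ContDiff ℝ ∞ (deriv (deriv f)) := (contDiff_infty_iff_deriv.1 h1).2
  have tf1 := h.tf
  have tf2 := tf1.deriv
  have tf3 := tf2.deriv
  have e : deriv (kp c d f) = fun t => deriv f t - c * deriv (deriv f) t + d * deriv (deriv (deriv f)) t := by
    funext t
    have a1 := ((contDiff_infty_iff_deriv.1 h.smooth).1 t).hasDerivAt
    have a2 := ((contDiff_infty_iff_deriv.1 h1).1 t).hasDerivAt
    have a3 := ((contDiff_infty_iff_deriv.1 h2).1 t).hasDerivAt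
    exact ((a1.sub (a2.const_mul c)).add (a3.const_mul d)).deriv
  have i1 := tf1.integrable (fun t => cexp (-s * t)) (by fun_prop)
  have i2 := tf2.integrable (fun t => cexp (-s * t)) (by fun_prop)
  have i3 := tf3.integrable (fun t => cexp (-s * t)) (by fun_prop)
  have e2 : DD (deriv (kp c d f)) s = DD (deriv f) s - c * DD (deriv (deriv f)) s +
      d * DD (deriv (deriv (deriv f))) s := by
    rw [e]
    unfold DD
    rw [← integral_const_mul, ← integral_const_mul, ← integral_sub i1 (i2.const_mul _)]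
    have i4 : Integrable (fun t : ℝ => ((deriv f t : ℝ) : ℂ) * cexp (-s * t) -
        (c : ℂ) * (((deriv (deriv f) t : ℝ) : ℂ) * cexp (-s * t))) := i1.sub (i2.const_mul _)
    rw [← integral_add i4 (i3.const_mul (d : ℂ))]
    refine integral_congr_ae (ae_of_all _ fun t => ?_)
    simp only
    push_cast
    ring
  rw [e2, tf2.ibp, tf1.ibp]
  ring

theorem kp_pow {ε : ℝ} (ρ : ℂ) (k : ℕ) {f : ℝ → ℝ} (h : ST ε f) :
    ∃ g : ℝ → ℝ, ST ε g ∧ ∀ s : ℂ, DD (deriv g) s = qf ρ s ^ k * DD (deriv f) s := by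
  induction k with
  | zero => exact ⟨f, h, fun s => by simp⟩
  | succ k ih =>
    obtain ⟨g, hg, hgs⟩ := ih
    refine ⟨kp (2 * ρ.re / ‖ρ‖ ^ 2) (1 / ‖ρ‖ ^ 2) g, kp_ST hg _ _, fun s => ?_⟩
    rw [kp_DD hg, hgs s, pow_succ]
    unfold qf
    ring

/-- the polynomial -/
def PF (F : Finset ℂ) (s : ℂ) : ℂ := ∏ ρ ∈ F, qf ρ s ^ mu ρ

theorem PF_step {ε : ℝ} (F : Finset ℂ) {f : ℝ → ℝ} (h : ST ε f) :
    ∃ g : ℝ → ℝ, ST ε g ∧ ∀ s : ℂ, DD (deriv g) s = PF F s * DD (deriv f) s := by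
  classical
  induction F using Finset.induction_on with
  | empty => exact ⟨f, h, fun s => by simp [PF]⟩
  | insert a G ha ih =>
    obtain ⟨g, hg, hgs⟩ := ih
    obtain ⟨g', hg', hgs'⟩ := kp_pow a (mu a) hg
    refine ⟨g', hg', fun s => ?_⟩
    rw [hgs' s, hgs s]
    unfold PF
    rw [Finset.prod_insert ha]
    ring

theorem PF_diff (F : Finset ℂ) : Differentiable ℂ (PF F) := by
  unfold PF
  have := qf_diff
  fun_prop

theorem PF_bound (F : Finset ℂ) : ∃ D : ℝ, ∃ m : ℕ, 0 < D ∧ ∀ s : ℂ, ‖PF F s‖ ≤ D * (1 + ‖s‖) ^ m := by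
  classical
  induction F using Finset.induction_on with
  | empty => exact ⟨1, 0, one_pos, fun s => by simp [PF]⟩
  | insert a G ha ih =>
    obtain ⟨D, m, hD, hb⟩ := ih
    obtain ⟨D', hD', hb'⟩ := qf_bound a
    refine ⟨D' ^ mu a * D, 2 * mu a + m, by positivity, fun s => ?_⟩
    unfold PF at hb ⊢
    rw [Finset.prod_insert ha, norm_mul, norm_pow]
    calc ‖qf a s‖ ^ mu a * ‖∏ ρ ∈ G, qf ρ s ^ mu ρ‖ ≤ (D' * (1 + ‖s‖) ^ 2) ^ mu a * (D * (1 + ‖s‖) ^ m) := by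
          gcongr
          · exact hb' s
          · exact hb s
      _ = _ := by rw [mul_pow, ← pow_mul, pow_add]; ring

theorem PF_order (F : Finset ℂ) (ρ ρ' : ℂ) (hρ : ρ ∈ F) (h0 : ρ ≠ 0)
    (h : ρ' = ρ ∨ ρ' = starRingEnd ℂ ρ) : (mu ρ : ℕ∞) ≤ analyticOrderAt (PF F) ρ' := by
  classical
  have e : PF F = (qf ρ) ^ (mu ρ) * (fun s => ∏ z ∈ F.erase ρ, qf z s ^ mu z) := by
    funext s
    unfold PF
    rw [← Finset.mul_prod_erase F _ hρ]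
    rfl
  have a1 : AnalyticAt ℂ (qf ρ) ρ' := (qf_diff ρ).analyticAt ρ'
  have a2 : AnalyticAt ℂ (fun s => ∏ z ∈ F.erase ρ, qf z s ^ mu z) ρ' := by
    refine Differentiable.analyticAt ?_ ρ'
    have := qf_diff
    fun_prop
  rw [e, analyticOrderAt_mul (a1.pow _) a2, analyticOrderAt_pow a1]
  refine le_add_right ?_
  have h1 : 1 ≤ analyticOrderAt (qf ρ) ρ' := by
    refine Order.one_le_iff_ne_zero.2 ?_
    rw [a1.analyticOrderAt_ne_zero]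
    exact qf_vanish ρ ρ' h0 h
  calc (mu ρ : ℕ∞) = (mu ρ : ℕ∞) * 1 := by rw [mul_one]
    _ ≤ mu ρ * analyticOrderAt (qf ρ) ρ' := by gcongr
    _ = mu ρ • analyticOrderAt (qf ρ) ρ' := by rw [nsmul_eq_mul]

/-- steps of the killing walk above height `T` -/
def hT (σ T : ℝ) : IX σ → ℝ := fun i => if T < i.1.1.im then hx σ i else 0

theorem hT_nonneg (σ T : ℝ) (i : IX σ) : 0 ≤ hT σ T i := by
  unfold hT
  split_ifs
  · exact (hx_pos σ i).le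
  · exact le_rfl

theorem hT_le (σ T : ℝ) (i : IX σ) : hT σ T i ≤ hx σ i := by
  unfold hT
  split_ifs
  · exact le_rfl
  · exact (hx_pos σ i).le

theorem hT_summable (σ T : ℝ) (h1 : 1 / 2 < σ) (h2 : σ < 1) : Summable (hT σ T) :=
  Summable.of_nonneg_of_le (hT_nonneg σ T) (hT_le σ T) (hx_summable σ h1 h2)

theorem hT_small (σ : ℝ) (h1 : 1 / 2 < σ) (h2 : σ < 1) (L : ℝ) (hL : 0 < L) :
    ∃ T : ℝ, ∑' i, hT σ T i < L := by
  have key : Tendsto (fun T : ℝ => ∑' i, hT σ T i) atTop (𝓝 (∑' _ : IX σ, (0:ℝ))) := by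
    refine tendsto_tsum_of_dominated_convergence (bound := hx σ) (hx_summable σ h1 h2) ?_ ?_
    · intro i
      refine tendsto_const_nhds.congr' ?_
      filter_upwards [eventually_ge_atTop i.1.1.im] with T hT'
      unfold hT
      rw [if_neg (not_lt.2 hT')]
    · refine Eventually.of_forall fun T i => ?_
      rw [Real.norm_eq_abs, abs_of_nonneg (hT_nonneg σ T i)]
      exact hT_le σ T i
  rw [tsum_zero] at key
  obtain ⟨T, hT'⟩ := (key.eventually (Iio_mem_nhds hL)).exists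
  exact ⟨T, hT'⟩

theorem low_finite (σ T : ℝ) : {ρ : ℂ | FF ρ = 0 ∧ ρ ∈ Icc σ 1 ×ℂ Icc 0 T}.Finite :=
  zeros_finite _ (isCompact_Icc.reProdIm isCompact_Icc)

/-- the low zeros -/
def LZ (σ T : ℝ) : Finset ℂ := (low_finite σ T).toFinset

theorem mem_LZ (σ T : ℝ) (ρ : ℂ) : ρ ∈ LZ σ T ↔ FF ρ = 0 ∧ (σ ≤ ρ.re ∧ ρ.re ≤ 1) ∧ (0 ≤ ρ.im ∧ ρ.im ≤ T) := by
  unfold LZ
  rw [Set.Finite.mem_toFinset]
  simp [Complex.mem_reProdIm]

/-- the killing function -/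
def KL (σ T : ℝ) (s : ℂ) : ℂ := PF (LZ σ T) s * KK (bx σ) (hT σ T) s

theorem KL_order_up (σ T : ℝ) (h1 : 1 / 2 < σ) (h2 : σ < 1) (ρ : ZS σ) (ρ' : ℂ)
    (hρ' : ρ' = ρ.1 ∨ ρ' = starRingEnd ℂ ρ.1) :
    (mu ρ.1 : ℕ∞) ≤ analyticOrderAt (KL σ T) ρ' := by
  classical
  have := ZS_countable σ h1 h2
  have hKd : Differentiable ℂ (KK (bx σ) (hT σ T)) :=
    KK_diff _ _ (hT_nonneg σ T) (hT_summable σ T h1 h2)
  have e : KL σ T = PF (LZ σ T) * KK (bx σ) (hT σ T) := rfl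
  rw [e, analyticOrderAt_mul ((PF_diff _).analyticAt ρ') (hKd.analyticAt ρ')]
  by_cases hlow : ρ.1.im ≤ T
  · refine le_add_right ?_
    have h0 : ρ.1 ≠ 0 := by
      intro h
      have := ρ.2.2.2
      rw [h] at this
      simp at this
    refine PF_order _ ρ.1 ρ' ?_ h0 hρ'
    rw [mem_LZ]
    exact ⟨ρ.2.1, ⟨ρ.2.2.1, (ZU.J_g2b.FF_zero_re ρ.2.1).le⟩, ρ.2.2.2.le, hlow⟩
  · refine le_add_left ?_
    set F : Finset (IX σ) := Finset.univ.map ⟨fun j : Fin (mu ρ.1) => (⟨ρ, j⟩ : IX σ), by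
      intro a b hab
      simpa using hab⟩ with hF
    have hcard : F.card = mu ρ.1 := by
      rw [hF, Finset.card_map, Finset.card_univ, Fintype.card_fin]
    have key := KK_order (bx σ) (hT σ T) (hT_nonneg σ T) (hT_summable σ T h1 h2) ρ' F ?_
    · rw [hcard] at key
      exact key
    · intro i hi
      rw [hF, Finset.mem_map] at hi
      obtain ⟨j, _, rfl⟩ := hi
      refine EE_vanish _ _ _ ?_
      have him : ρ.1.im ≠ 0 := ρ.2.2.2.ne'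
      simp only [Function.Embedding.coeFn_mk, bx, hT, hx, if_pos (not_le.1 hlow)]
      rcases hρ' with h | h
      · right
        rw [h]
        have e : ((ρ.1.re : ℂ) - ρ.1) = -(ρ.1.im * I) := by
          apply Complex.ext <;> simp
        rw [e]
        push_cast
        have : (ρ.1.im : ℂ) ≠ 0 := by exact_mod_cast him
        field_simp
      · left
        rw [h]
        have e : ((ρ.1.re : ℂ) - starRingEnd ℂ ρ.1) = (ρ.1.im * I) := by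
          apply Complex.ext <;> simp
        rw [e]
        push_cast
        have : (ρ.1.im : ℂ) ≠ 0 := by exact_mod_cast him
        field_simp

theorem KL_order (σ T : ℝ) (h1 : 1 / 2 < σ) (h2 : σ < 1) (ρ : ℂ) (hρ : FF ρ = 0) (hre : σ ≤ ρ.re) :
    analyticOrderAt FF ρ ≤ analyticOrderAt (KL σ T) ρ := by
  rw [← mu_cast]
  have him := FF_im_ne ρ hρ (by linarith)
  rcases lt_or_gt_of_ne him with h | h
  · have hz : FF (starRingEnd ℂ ρ) = 0 := by rw [FF_conj, hρ]; simp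
    have := KL_order_up σ T h1 h2 ⟨starRingEnd ℂ ρ, hz, by simpa using hre, by simpa using h⟩ ρ
      (Or.inr (by simp))
    simp only at this
    rwa [mu_conj] at this
  · exact KL_order_up σ T h1 h2 ⟨ρ, hρ, hre, h⟩ ρ (Or.inl rfl)

theorem KL_kill (σ T : ℝ) (h1 : 1 / 2 < σ) (h2 : σ < 1) : Kill σ (KL σ T) := by
  have := ZS_countable σ h1 h2
  refine ⟨?_, ?_, fun ρ h0 hre => KL_order σ T h1 h2 ρ h0 hre⟩
  · exact (PF_diff _).mul (KK_diff _ _ (hT_nonneg σ T) (hT_summable σ T h1 h2))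
  · obtain ⟨D, m, hD, hb⟩ := PF_bound (LZ σ T)
    refine ⟨D, m, hD, fun s hs => ?_⟩
    unfold KL
    rw [norm_mul]
    have h5 := KK_norm (bx σ) (hT σ T) (hT_nonneg σ T) s hs
    calc ‖PF (LZ σ T) s‖ * ‖KK (bx σ) (hT σ T) s‖ ≤ (D * (1 + ‖s‖) ^ m) * 1 :=
          mul_le_mul (hb s) h5 (norm_nonneg _) (by positivity)
      _ = _ := mul_one _

end

end H353
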