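import Pool.Agent.H353R3.S3
import Pool.Agent.H353R2.K9

open Complex MeasureTheory ProbabilityTheory Filter Topology Set Metric
open scoped ContDiff

set_option linter.unusedSectionVars false

namespace H353

noncomputable section

/-- real valued Möbius function -/
def aM (n : ℕ) : ℝ := (ArithmeticFunction.moebius n : ℝ)

theorem aM_zero : aM 0 = 0 := by simp [aM]

theorem aM_summable : Summable (fun n : ℕ => |aM n| / (n : ℝ) ^ 2) := by
  refine Summable.of_nonneg_of_le (fun n => by positivity) (fun n => ?_)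
    (Real.summable_one_div_nat_pow.2 (by norm_num : 1 < 2))
  refine div_le_div_of_nonneg_right ?_ (by positivity)
  unfold aM
  exact_mod_cast ArithmeticFunction.abs_moebius_le_one (n := n)

theorem aM_series (s : ℂ) (hs : 1 < s.re) : LSeries (fun n => (aM n : ℂ)) s = (riemannZeta s)⁻¹ := by
  have h2 := ArithmeticFunction.LSeries_zeta_mul_Lseries_moebius hs
  rw [ArithmeticFunction.LSeries_zeta_eq_riemannZeta hs] at h2
  have h3 := eq_inv_of_mul_eq_one_right h2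
  rw [← h3]
  refine LSeries_congr (fun {n} hn => ?_) s
  simp [aM]

section

variable {ι : Type*} [Countable ι] (b h : ι → ℝ) (h0 : ∀ i, 0 ≤ h i) (hs : Summable h)

include h0 hs in
theorem core_mu {σ θ ε ε' : ℝ} (h1 : 1 / 2 < σ) (h2 : σ < θ) (h3 : θ < 1) (hε : 0 < ε)
    {f : ℝ → ℝ} (hf : ST ε' f) {K : ℂ → ℂ} (hK : Kill σ K)
    (hGK : ∀ s : ℂ, 0 < s.re → GF f s * KK b h s = GG ε s * K s) :
    ∃ C : ℝ, 0 < C ∧ ∀ t : ℝ, |∑' n : ℕ, aM n * Av b h f (t - Real.log n)| ≤ C * Real.exp (θ * t) := by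
  obtain ⟨H, D, N, hD, hHd, hKH, hHb⟩ := hK.exists_H θ h1 h2 h3
  set P : ℂ → ℂ := fun s => (s - 1) * H s with hP
  obtain ⟨C, hC, hb⟩ := shift_bound θ ε (by linarith) h3 hε P (3 * D) (N + 1) (by positivity)
    (fun s hs _ => by
      have d2 := hHd s (by linarith)
      rw [hP]
      fun_prop) (by
      intro s hs1 hs2
      have hn : 1 / 2 ≤ ‖s‖ := by
        have := (le_abs_self s.re).trans (Complex.abs_re_le_norm s)
        linarith
      have e2 : ‖s - 1‖ ≤ 3 * ‖s‖ := by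
        have := norm_sub_le s 1
        rw [norm_one] at this
        linarith
      have e3 := hHb s hs1 hs2
      rw [hP]
      simp only
      rw [norm_mul]
      calc ‖s - 1‖ * ‖H s‖ ≤ (3 * ‖s‖) * (D * ‖s‖ ^ N) := by gcongr
        _ = _ := by ring)
  refine ⟨C, hC, fun t => ?_⟩
  have hform := gen_formulaF b h h0 hs hf t aM aM_zero aM_summable
  have e2 : (∫ ξ : ℝ, GF f (ln 2 ξ) * KK b h (ln 2 ξ) * cexp (ln 2 ξ * t) *
      LSeries (fun n => (aM n : ℂ)) (ln 2 ξ)) = ∫ ξ : ℝ, GG ε (ln 2 ξ) * P (ln 2 ξ) * cexp (ln 2 ξ * t) := by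
    refine integral_congr_ae (ae_of_all _ fun ξ => ?_)
    have hre : (ln 2 ξ).re = 2 := ln_re 2 ξ
    simp only
    generalize ln 2 ξ = s at hre ⊢
    have hne1 : s ≠ 1 := by
      intro h
      have := congrArg Complex.re h
      rw [hre] at this
      simp at this
    have hz : riemannZeta s ≠ 0 := riemannZeta_ne_zero_of_one_lt_re (by rw [hre]; norm_num)
    have hK' : K s = FF s * H s := hKH _ (by rw [hre]; linarith)
    rw [aM_series s (by rw [hre]; norm_num), hGK s (by rw [hre]; norm_num), hK',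
      show FF s = (s - 1) * riemannZeta s from ZU.J_g2b.FF_ne hne1, hP]
    simp only
    field_simp
  rw [e2] at hform
  have hn : |∑' n : ℕ, aM n * Av b h f (t - Real.log n)| =
      ‖((∑' n : ℕ, aM n * Av b h f (t - Real.log n) : ℝ) : ℂ)‖ := by
    rw [Complex.norm_real, Real.norm_eq_abs]
  rw [hn, hform]
  exact hb t

include h0 hs in
theorem core_lam {σ θ ε ε' : ℝ} (h1 : 1 / 2 < σ) (h2 : σ < θ) (h3 : θ < 1) (hε : 0 < ε)
    {f : ℝ → ℝ} (hf : ST ε' f) {K : ℂ → ℂ} (hK : Kill σ K)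
    (hGK : ∀ s : ℂ, 0 < s.re → GF f s * KK b h s = GG ε s * K s) :
    ∃ C : ℝ, 0 < C ∧ ∀ t : ℝ, |∑' n : ℕ, aL n * Av b h f (t - Real.log n)| ≤ C * Real.exp (θ * t) := by
  obtain ⟨H, D, N, hD, hHd, hKH, hHb⟩ := hK.exists_H θ h1 h2 h3
  obtain ⟨D1, m, hD1, hKb⟩ := hK.bound
  set P : ℂ → ℂ := fun s => -(deriv FF s * H s) - K s * dslope FF 1 s with hP
  have hFFd : Differentiable ℂ FF := ZU.J_g2b.FF_diff
  have hFF' : Differentiable ℂ (deriv FF) := by
    intro s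
    exact (hFFd.analyticAt s).deriv.differentiableAt
  have hds : Differentiable ℂ (dslope FF 1) := by
    have := (Complex.differentiableOn_dslope (f := FF) (s := univ) (c := 1) univ_mem).2
      hFFd.differentiableOn
    exact differentiableOn_univ.1 this
  set d1 : ℝ := ‖deriv FF 1‖ with hd1
  have hd10 : 0 ≤ d1 := norm_nonneg _
  obtain ⟨C, hC, hb⟩ := shift_bound θ ε (by linarith) h3 hε P
    (720 * D * 2 ^ m + D1 * 3 ^ m * (4 + 2 * d1) * 2 ^ (N + 1)) (N + 2 + m)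
    (by positivity) (fun s hs _ => by
      have d2 := hHd s (by linarith)
      have d3 := hK.diff s
      have d4 := hFF' s
      have d5 := hds s
      rw [hP]
      exact ((d4.mul d2).neg).sub (d3.mul d5)) (by
      intro s hs1 hs2
      have hn : 1 / 2 ≤ ‖s‖ := by
        have := (le_abs_self s.re).trans (Complex.abs_re_le_norm s)
        linarith
      have hn0 : 0 < ‖s‖ := by linarith
      have b1 := FF_deriv_bound s (by linarith)
      have b2 := hHb s hs1 hs2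
      have b3 := hKb s (by linarith)
      have b4 := FF_dslope_bound s (by linarith)
      have b5 : (1 + ‖s‖) ^ 2 ≤ 9 * ‖s‖ ^ 2 := by nlinarith
      have b6 : 1 + 2 * ‖s‖ + d1 ≤ (4 + 2 * d1) * ‖s‖ := by nlinarith
      have b7 : 1 ≤ (2 * ‖s‖) ^ (N + 1) := one_le_pow₀ (by linarith)
      have b7' : 1 ≤ (2 * ‖s‖) ^ m := one_le_pow₀ (by linarith)
      have b3' : D1 * (1 + ‖s‖) ^ m ≤ D1 * 3 ^ m * ‖s‖ ^ m := by
        rw [mul_assoc, ← mul_pow]
        refine mul_le_mul_of_nonneg_left ?_ hD1.le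
        exact pow_le_pow_left₀ (by linarith) (by linarith) m
      have b8 : (4 + 2 * d1) * ‖s‖ ≤ (4 + 2 * d1) * 2 ^ (N + 1) * ‖s‖ ^ (N + 2) := by
        calc (4 + 2 * d1) * ‖s‖ = (4 + 2 * d1) * ‖s‖ * 1 := by ring
          _ ≤ (4 + 2 * d1) * ‖s‖ * (2 * ‖s‖) ^ (N + 1) := by gcongr
          _ = _ := by rw [mul_pow]; ring
      calc ‖P s‖ ≤ ‖deriv FF s * H s‖ + ‖K s * dslope FF 1 s‖ := by
            rw [hP]
            refine (norm_sub_le _ _).trans ?_
            rw [norm_neg]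
        _ ≤ (80 * (1 + ‖s‖) ^ 2) * (D * ‖s‖ ^ N) + (D1 * 3 ^ m * ‖s‖ ^ m) * (1 + 2 * ‖s‖ + d1) := by
            rw [norm_mul, norm_mul]
            have := b3.trans b3'
            gcongr
        _ ≤ (80 * (9 * ‖s‖ ^ 2)) * (D * ‖s‖ ^ N) + (D1 * 3 ^ m * ‖s‖ ^ m) * ((4 + 2 * d1) * 2 ^ (N + 1) * ‖s‖ ^ (N + 2)) := by
            gcongr
            exact b6.trans b8
        _ = (720 * D * ‖s‖ ^ (N + 2)) * 1 + D1 * 3 ^ m * (4 + 2 * d1) * 2 ^ (N + 1) * ‖s‖ ^ (N + 2 + m) := by ring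
        _ ≤ (720 * D * ‖s‖ ^ (N + 2)) * (2 * ‖s‖) ^ m + D1 * 3 ^ m * (4 + 2 * d1) * 2 ^ (N + 1) * ‖s‖ ^ (N + 2 + m) := by
            gcongr
        _ = _ := by rw [mul_pow]; ring)
  refine ⟨C, hC, fun t => ?_⟩
  have hform := gen_formulaF b h h0 hs hf t aL (by simp [aL]) aL_summable
  have e2 : (∫ ξ : ℝ, GF f (ln 2 ξ) * KK b h (ln 2 ξ) * cexp (ln 2 ξ * t) *
      LSeries (fun n => (aL n : ℂ)) (ln 2 ξ)) = ∫ ξ : ℝ, GG ε (ln 2 ξ) * P (ln 2 ξ) * cexp (ln 2 ξ * t) := by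
    refine integral_congr_ae (ae_of_all _ fun ξ => ?_)
    have hre : (ln 2 ξ).re = 2 := ln_re 2 ξ
    simp only
    generalize ln 2 ξ = s at hre ⊢
    have hne1 : s ≠ 1 := by
      intro h
      have := congrArg Complex.re h
      rw [hre] at this
      simp at this
    have hs1 : s - 1 ≠ 0 := sub_ne_zero.2 hne1
    have hz : riemannZeta s ≠ 0 := riemannZeta_ne_zero_of_one_lt_re (by rw [hre]; norm_num)
    have hK' : K s = FF s * H s := hKH _ (by rw [hre]; linarith)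
    have hFFs : FF s = (s - 1) * riemannZeta s := ZU.J_g2b.FF_ne hne1
    have hder : deriv FF s = riemannZeta s + (s - 1) * deriv riemannZeta s := by
      have e3 : FF =ᶠ[𝓝 s] fun z => (z - 1) * riemannZeta z := by
        filter_upwards [isOpen_ne.mem_nhds hne1] with z hz using ZU.J_g2b.FF_ne hz
      rw [e3.deriv_eq]
      have h4 : HasDerivAt (fun z : ℂ => z - 1) 1 s := (hasDerivAt_id s).sub_const 1
      have h5 : HasDerivAt riemannZeta (deriv riemannZeta s) s := (differentiableAt_riemannZeta hne1).hasDerivAt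
      have h6 := (h4.fun_mul h5).deriv
      rw [h6]
      ring
    rw [aL_series s (by rw [hre]; norm_num), hGK s (by rw [hre]; norm_num), hP]
    simp only
    rw [hK', dslope_of_ne _ hne1, slope_def_field, show FF 1 = 1 from ZU.J_g2b.FF_one, hder, hFFs]
    field_simp
    ring
  rw [e2] at hform
  have hn : |∑' n : ℕ, aL n * Av b h f (t - Real.log n)| =
      ‖((∑' n : ℕ, aL n * Av b h f (t - Real.log n) : ℝ) : ℂ)‖ := by
    rw [Complex.norm_real, Real.norm_eq_abs]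
  rw [hn, hform]
  exact hb t

end

theorem ST.mono {ε ε' : ℝ} {f : ℝ → ℝ} (h : ST ε f) (hle : ε ≤ ε') : ST ε' f :=
  ⟨h.smooth, h.zero, fun t ht => h.one t (hle.trans ht)⟩

/-- a step `g` of length `L` which makes the sums over the Möbius function and over the primes
small -/
structure Good (L θ : ℝ) (g : ℝ → ℝ) : Prop where
  st : ST L g
  mu : ∃ C : ℝ, 0 < C ∧ ∀ t : ℝ, |∑' n : ℕ, aM n * g (t - Real.log n)| ≤ C * Real.exp (θ * t)
  lam : ∃ C : ℝ, 0 < C ∧ ∀ t : ℝ, |∑' n : ℕ, aL n * g (t - Real.log n)| ≤ C * Real.exp (θ * t)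

/-- signed steps exist at every scale -/
theorem good_signed (L θ : ℝ) (hL : 0 < L) (h1 : 1 / 2 < θ) (h2 : θ < 1) : ∃ g, Good L θ g := by
  obtain ⟨hb1, hb2⟩ := sg_bounds θ h1 h2
  have hb3 : sg θ < 1 := by linarith
  have := ZS_countable (sg θ) hb1 hb3
  obtain ⟨T, hTs⟩ := hT_small (sg θ) hb1 hb3 (L / 2) (by linarith)
  obtain ⟨f, hf, hfs⟩ := PF_step (LZ (sg θ) T) (Ph_ST (L / 2) (by linarith))
  have hK := KL_kill (sg θ) T hb1 hb3
  have hGK : ∀ s : ℂ, 0 < s.re → GF f s * KK (bx (sg θ)) (hT (sg θ) T) s = GG (L / 2) s * KL (sg θ) T s := by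
    intro s _
    unfold GF GG KL
    rw [hfs s]
    ring
  refine ⟨Av (bx (sg θ)) (hT (sg θ) T) f, ?_, ?_, ?_⟩
  · exact (Av_ST _ _ (hT_nonneg _ T) (hT_summable _ T hb1 hb3) hf).mono (by linarith)
  · exact core_mu _ _ (hT_nonneg _ T) (hT_summable _ T hb1 hb3) hb1 hb2 h2 (by linarith) hf hK hGK
  · exact core_lam _ _ (hT_nonneg _ T) (hT_summable _ T hb1 hb3) hb1 hb2 h2 (by linarith) hf hK hGK

/-- monotone steps exist at a suitable scale -/
theorem good_mono (ε θ : ℝ) (hε : 0 < ε) (h1 : 1 / 2 < θ) (h2 : θ < 1) :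
    ∃ g, Good (ε + HT (sg θ)) θ g ∧ Monotone g := by
  obtain ⟨hb1, hb2⟩ := sg_bounds θ h1 h2
  have hb3 : sg θ < 1 := by linarith
  have := ZS_countable (sg θ) hb1 hb3
  have hf := Ph_ST ε hε
  have hK := KS_kill (sg θ) hb1 hb3
  have h0 : ∀ i, 0 ≤ hx (sg θ) i := fun i => (hx_pos _ i).le
  have hs := hx_summable (sg θ) hb1 hb3
  have hGK : ∀ s : ℂ, 0 < s.re → GF (Ph ε) s * KK (bx (sg θ)) (hx (sg θ)) s = GG ε s * KS (sg θ) s :=
    fun s _ => rfl
  refine ⟨Av (bx (sg θ)) (hx (sg θ)) (Ph ε), ⟨?_, ?_, ?_⟩, ?_⟩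
  · exact Av_ST _ _ h0 hs hf
  · exact core_mu _ _ h0 hs hb1 hb2 h2 hε hf hK hGK
  · exact core_lam _ _ h0 hs hb1 hb2 h2 hε hf hK hGK
  · exact Av_mono _ _ h0 hs hf (Ph_mono ε hε)

end

end H353
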