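import Pool.Agent.H353R3.S4

open Complex MeasureTheory ProbabilityTheory Filter Topology Set Metric
open scoped ContDiff

set_option linter.unusedSectionVars false

namespace H353

noncomputable section

/-- the smoothed sum -/
def SG (a : ℕ → ℝ) (g : ℝ → ℝ) (t : ℝ) : ℝ := ∑' n : ℕ, a n * g (t - Real.log n)

variable {L : ℝ} {g : ℝ → ℝ} {a : ℕ → ℝ}

theorem SG_eq_sum (hg : ST L g) (N : ℕ) (t : ℝ) (h : ∀ n : ℕ, N < n → t ≤ Real.log n) :
    SG a g t = ∑ n ∈ Finset.range (N + 1), a n * g (t - Real.log n) := by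
  unfold SG
  refine tsum_eq_sum fun n hn => ?_
  rw [Finset.mem_range, not_lt] at hn
  rw [hg.zero _ (by linarith [h n (by omega)]), mul_zero]

theorem SG_neg (hg : ST L g) (ha0 : a 0 = 0) (t : ℝ) (ht : t ≤ 0) : SG a g t = 0 := by
  unfold SG
  have : ∀ n : ℕ, a n * g (t - Real.log n) = 0 := by
    intro n
    rcases Nat.eq_zero_or_pos n with h | h
    · rw [h, ha0, zero_mul]
    · have : 0 ≤ Real.log n := Real.log_nonneg (by exact_mod_cast h)
      rw [hg.zero _ (by linarith), mul_zero]
  simp [this]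

theorem SG_cont (hg : ST L g) (ha0 : a 0 = 0) : Continuous (SG a g) := by
  rw [continuous_iff_continuousAt]
  intro t0
  set N := ⌈Real.exp (t0 + 1)⌉₊ with hN
  have h1 : ∀ t ∈ Iio (t0 + 1), SG a g t = ∑ n ∈ Finset.range (N + 1), a n * g (t - Real.log n) := by
    intro t ht
    refine SG_eq_sum hg N t fun n hn => ?_
    have h2 : Real.exp (t0 + 1) ≤ n := (Nat.le_ceil _).trans (by exact_mod_cast hn.le)
    have h3 : t0 + 1 ≤ Real.log n := by
      rw [Real.le_log_iff_exp_le (lt_of_lt_of_le (Real.exp_pos _) h2)]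
      exact h2
    have : t < t0 + 1 := ht
    linarith
  have h2 : ContinuousAt (fun t => ∑ n ∈ Finset.range (N + 1), a n * g (t - Real.log n)) t0 := by
    have := hg.smooth.continuous
    exact (by fun_prop : Continuous _).continuousAt
  refine h2.congr ?_
  filter_upwards [Iio_mem_nhds (show t0 < t0 + 1 by linarith)] with t ht
  exact (h1 t ht).symm

theorem SG_laplace (hg : ST L g) (ha0 : a 0 = 0) (hsum : Summable (fun n : ℕ => |a n| / (n : ℝ) ^ 2))
    (s : ℂ) (hs : 2 ≤ s.re) :
    ∫ t : ℝ, (SG a g t : ℂ) * cexp (-s * t) =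
      LSeries (fun n => (a n : ℂ)) s * ∫ t : ℝ, (g t : ℂ) * cexp (-s * t) := by
  have hgi := hg.exp_int s (by linarith)
  set J := ∫ t : ℝ, (g t : ℂ) * cexp (-s * t) with hJ
  set B := ∫ t : ℝ, ‖(g t : ℂ) * cexp (-s * t)‖ with hB
  have hB0 : 0 ≤ B := integral_nonneg fun _ => norm_nonneg _
  set F : ℕ → ℝ → ℂ := fun n t => (a n : ℂ) * ((g (t - Real.log n) : ℂ) * cexp (-s * t)) with hF
  have hshift : ∀ n : ℕ, n ≠ 0 → ∀ t : ℝ, (g (t - Real.log n) : ℂ) * cexp (-s * t) =
      ((n : ℂ) ^ (-s)) * ((g (t - Real.log n) : ℂ) * cexp (-s * ((t - Real.log n : ℝ) : ℂ))) := by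
    intro n hn t
    have hnc : (n : ℂ) ≠ 0 := by exact_mod_cast hn
    rw [Complex.cpow_def_of_ne_zero hnc, ← Complex.natCast_log]
    rw [mul_left_comm, ← Complex.exp_add]
    congr 2
    push_cast
    ring
  have hFi : ∀ n, Integrable (F n) := by
    intro n
    rw [hF]
    by_cases hn : n = 0
    · simp only [hn, ha0, Complex.ofReal_zero, zero_mul]
      exact integrable_zero _ _ _
    · simp only
      refine Integrable.const_mul ?_ _
      simp_rw [hshift n hn]
      exact (hgi.comp_sub_right (Real.log n)).const_mul _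
  have hFI : ∀ n, ∫ t, F n t = LSeries.term (fun n => (a n : ℂ)) s n * J := by
    intro n
    rw [hF]
    by_cases hn : n = 0
    · simp [hn, ha0]
    · simp only
      rw [integral_const_mul]
      simp_rw [hshift n hn]
      rw [integral_const_mul, integral_sub_right_eq_self (fun t : ℝ => (g t : ℂ) * cexp (-s * ((t : ℝ) : ℂ))),
        LSeries.term_of_ne_zero hn, Complex.cpow_neg]
      ring
  have hFN : ∀ n, ∫ t, ‖F n t‖ ≤ B * (|a n| / (n : ℝ) ^ 2) := by
    intro n
    rw [hF]
    by_cases hn : n = 0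
    · simp only [hn, ha0, Complex.ofReal_zero, zero_mul, norm_zero, integral_zero]
      simp
    · simp only [norm_mul]
      have e1 : ∀ t : ℝ, ‖(g (t - Real.log n) : ℂ)‖ * ‖cexp (-s * t)‖ =
          ‖(n : ℂ) ^ (-s)‖ * ‖(g (t - Real.log n) : ℂ) * cexp (-s * ((t - Real.log n : ℝ) : ℂ))‖ := by
        intro t
        rw [← norm_mul, hshift n hn t, norm_mul]
      simp_rw [e1]
      rw [integral_const_mul, integral_const_mul,
        integral_sub_right_eq_self (fun t : ℝ => ‖(g t : ℂ) * cexp (-s * ((t : ℝ) : ℂ))‖)]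
      have hn0 : (0:ℝ) < n := by exact_mod_cast Nat.pos_of_ne_zero hn
      have hn1 : (1:ℝ) ≤ n := by exact_mod_cast Nat.pos_of_ne_zero hn
      have e2 : ‖(n : ℂ) ^ (-s)‖ ≤ 1 / (n:ℝ) ^ 2 := by
        rw [Complex.norm_natCast_cpow_of_pos (Nat.pos_of_ne_zero hn), Complex.neg_re, Real.rpow_neg hn0.le, one_div]
        refine inv_anti₀ (by positivity) ?_
        rw [← Real.rpow_natCast]
        exact Real.rpow_le_rpow_of_exponent_le hn1 (by exact_mod_cast hs)
      rw [Complex.norm_real, Real.norm_eq_abs]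
      calc |a n| * (‖(n : ℂ) ^ (-s)‖ * B) ≤ |a n| * (1 / (n:ℝ) ^ 2 * B) := by gcongr
        _ = _ := by ring
  have hsum' : Summable (fun n => ∫ t, ‖F n t‖) :=
    Summable.of_nonneg_of_le (fun n => integral_nonneg fun _ => norm_nonneg _) hFN (hsum.mul_left B)
  have key := integral_tsum_of_summable_integral_norm hFi hsum'
  simp_rw [hFI] at key
  rw [tsum_mul_right] at key
  unfold LSeries
  rw [key]
  refine integral_congr_ae (ae_of_all _ fun t => ?_)
  simp only [SG, hF]
  rw [Complex.ofReal_tsum, ← tsum_mul_right]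
  refine tsum_congr fun n => ?_
  push_cast
  ring

theorem SG_diff (hg : ST L g) (ha0 : a 0 = 0) (C θ : ℝ)
    (hb : ∀ t, |SG a g t| ≤ C * Real.exp (θ * t)) (s0 : ℂ) (hs0 : θ < s0.re) :
    DifferentiableAt ℂ (fun s => ∫ t : ℝ, (SG a g t : ℂ) * cexp (-s * t)) s0 := by
  have hC : 0 ≤ C := by
    have := (abs_nonneg _).trans (hb 0)
    simpa using this
  set δ : ℝ := (s0.re - θ) / 3 with hδ
  have hδ0 : 0 < δ := by rw [hδ]; linarith
  have hcont := SG_cont hg ha0
  have hI : ∀ c D : ℝ, 0 < c → Integrable (indicator (Ioi (0:ℝ)) (fun t : ℝ => D * Real.exp (-c * t))) := by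
    intro c D hc
    have h1 : IntegrableOn (fun t : ℝ => D * Real.exp (-c * t)) (Ioi 0) :=
      (integrableOn_exp_mul_Ioi (by linarith) 0).const_mul D
    exact h1.integrable_indicator measurableSet_Ioi
  have key := hasDerivAt_integral_of_dominated_loc_of_deriv_le (μ := (volume : Measure ℝ))
    (F := fun (s : ℂ) (t : ℝ) => (SG a g t : ℂ) * cexp (-s * t))
    (F' := fun (s : ℂ) (t : ℝ) => (SG a g t : ℂ) * (-(t : ℂ) * cexp (-s * t))) (x₀ := s0)
    (s := Metric.ball s0 δ) (bound := indicator (Ioi (0:ℝ)) (fun t : ℝ => C / δ * Real.exp (-δ * t)))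
    (Metric.ball_mem_nhds s0 hδ0) ?_ ?_ ?_ ?_ ?_ ?_
  · exact key.2.differentiableAt
  · refine Eventually.of_forall fun s => ?_
    exact (by fun_prop : Continuous _).aestronglyMeasurable
  · refine (hI (3 * δ) C (by linarith)).mono' (by fun_prop : Continuous _).aestronglyMeasurable
      (ae_of_all _ fun t => ?_)
    rw [norm_mul, Complex.norm_real, Real.norm_eq_abs, Complex.norm_exp]
    have e : (-s0 * (t : ℂ)).re = -s0.re * t := by simp
    rw [e]
    by_cases ht : 0 < t
    · rw [indicator_of_mem (show t ∈ Ioi 0 from ht)]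
      calc |SG a g t| * Real.exp (-s0.re * t) ≤ (C * Real.exp (θ * t)) * Real.exp (-s0.re * t) := by
            gcongr; exact hb t
        _ = C * Real.exp (-(3 * δ) * t) := by
            rw [mul_assoc, ← Real.exp_add]
            congr 2
            rw [hδ]; ring
    · rw [indicator_of_notMem (show t ∉ Ioi 0 from ht), SG_neg hg ha0 t (not_lt.1 ht)]
      simp
  · exact (by fun_prop : Continuous _).aestronglyMeasurable
  · refine ae_of_all _ fun t s hs => ?_
    have hre : θ + 2 * δ ≤ s.re := by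
      rw [Metric.mem_ball, dist_eq_norm] at hs
      have h5 := (abs_le.1 ((Complex.abs_re_le_norm (s - s0)).trans hs.le)).1
      rw [Complex.sub_re] at h5
      have : s0.re = θ + 3 * δ := by rw [hδ]; ring
      linarith
    rw [norm_mul, norm_mul, norm_neg, Complex.norm_real, Complex.norm_real, Real.norm_eq_abs,
      Real.norm_eq_abs, Complex.norm_exp]
    have e : (-s * (t : ℂ)).re = -s.re * t := by simp
    rw [e]
    by_cases ht : 0 < t
    · rw [indicator_of_mem (show t ∈ Ioi 0 from ht), abs_of_pos ht]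
      have h6 : t ≤ Real.exp (δ * t) / δ := by
        rw [le_div_iff₀ hδ0]
        have := Real.add_one_le_exp (δ * t)
        linarith
      have h7 : Real.exp (-s.re * t) ≤ Real.exp (-(θ + 2 * δ) * t) := by
        refine Real.exp_le_exp.2 ?_
        have := mul_le_mul_of_nonneg_right hre ht.le
        linarith
      have h8 := hb t
      have h9 : 0 ≤ Real.exp (δ * t) / δ := by positivity
      calc |SG a g t| * (t * Real.exp (-s.re * t))
          ≤ (C * Real.exp (θ * t)) * ((Real.exp (δ * t) / δ) * Real.exp (-(θ + 2 * δ) * t)) := by gcongr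
        _ = C / δ * (Real.exp (θ * t) * Real.exp (δ * t) * Real.exp (-(θ + 2 * δ) * t)) := by ring
        _ = C / δ * Real.exp (-δ * t) := by
            rw [← Real.exp_add, ← Real.exp_add]
            congr 2
            ring
    · rw [indicator_of_notMem (show t ∉ Ioi 0 from ht), SG_neg hg ha0 t (not_lt.1 ht)]
      simp
  · exact hI δ (C / δ) hδ0
  · refine ae_of_all _ fun t s _ => ?_
    have h1 : HasDerivAt (fun z : ℂ => cexp (-z * t)) (cexp (-s * t) * (-1 * t)) s :=
      (((hasDerivAt_id s).neg).mul_const (t : ℂ)).cexp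
    have h2 := h1.const_mul (SG a g t : ℂ)
    have e : (SG a g t : ℂ) * (cexp (-s * t) * (-1 * t)) = (SG a g t : ℂ) * (-(t : ℂ) * cexp (-s * t)) := by
      ring
    rw [e] at h2
    exact h2

theorem half_pre (θ : ℝ) : IsPreconnected {s : ℂ | θ < s.re} :=
  (convex_halfSpace_re_gt θ).isPreconnected

/-- identity theorem on the half plane -/
theorem half_id (θ : ℝ) (h3 : θ < 1) (u v : ℂ → ℂ) (hu : ∀ s : ℂ, θ < s.re → DifferentiableAt ℂ u s)
    (hv : ∀ s : ℂ, θ < s.re → DifferentiableAt ℂ v s) (huv : ∀ s : ℂ, 2 < s.re → u s = v s) (s : ℂ)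
    (hs : θ < s.re) : u s = v s := by
  have ho : IsOpen {s : ℂ | θ < s.re} := isOpen_lt continuous_const Complex.continuous_re
  have hu' : AnalyticOnNhd ℂ u {s : ℂ | θ < s.re} := by
    have : DifferentiableOn ℂ u {s : ℂ | θ < s.re} := fun s hs => (hu s hs).differentiableWithinAt
    exact this.analyticOnNhd ho
  have hv' : AnalyticOnNhd ℂ v {s : ℂ | θ < s.re} := by
    have : DifferentiableOn ℂ v {s : ℂ | θ < s.re} := fun s hs => (hv s hs).differentiableWithinAt
    exact this.analyticOnNhd ho
  refine hu'.eqOn_of_preconnected_of_eventuallyEq hv' (half_pre θ) (z₀ := (3:ℂ)) ?_ ?_ hs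
  · show θ < (3:ℂ).re
    norm_num
    linarith
  · have : {s : ℂ | 2 < s.re} ∈ 𝓝 (3:ℂ) := by
      refine (isOpen_lt continuous_const Complex.continuous_re).mem_nhds ?_
      show (2:ℝ) < (3:ℂ).re
      norm_num
    filter_upwards [this] with z hz using huv z hz

theorem DD_zero_mu (hg : ST L g) (θ C : ℝ) (h0 : 0 < θ) (h3 : θ < 1)
    (hb : ∀ t, |SG aM g t| ≤ C * Real.exp (θ * t)) (ρ : ℂ) (hρ : FF ρ = 0) (hre : θ < ρ.re) :
    DD (deriv g) ρ = 0 := by
  have key := half_id θ h3 (fun s => FF s * (s * ∫ t : ℝ, (SG aM g t : ℂ) * cexp (-s * t)))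
    (fun s => (s - 1) * DD (deriv g) s) ?_ ?_ ?_ ρ hre
  · rw [hρ, zero_mul] at key
    have hne : ρ - 1 ≠ 0 := by
      rw [sub_ne_zero]
      rintro rfl
      rw [show FF 1 = 1 from ZU.J_g2b.FF_one] at hρ
      exact one_ne_zero hρ
    rcases mul_eq_zero.1 key.symm with h | h
    · exact absurd h hne
    · exact h
  · intro s hs
    have d1 := SG_diff hg aM_zero C θ hb s hs
    have d2 : DifferentiableAt ℂ FF s := ZU.J_g2b.FF_diff s
    exact d2.mul (differentiableAt_id.mul d1)
  · intro s _
    have d1 := hg.tf.diff s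
    exact (differentiableAt_id.sub_const 1).mul d1
  · intro s hs
    have hne1 : s ≠ 1 := by
      rintro rfl
      norm_num at hs
    have hs0 : s ≠ 0 := by
      rintro rfl
      norm_num at hs
    have hz : riemannZeta s ≠ 0 := riemannZeta_ne_zero_of_one_lt_re (by linarith)
    rw [SG_laplace hg aM_zero aM_summable s hs.le, hg.laplace s (by linarith), aM_series s (by linarith),
      show FF s = (s - 1) * riemannZeta s from ZU.J_g2b.FF_ne hne1]
    field_simp

theorem DD_zero_lam (hg : ST L g) (θ C : ℝ) (h0 : 0 < θ) (h3 : θ < 1)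
    (hb : ∀ t, |SG aL g t| ≤ C * Real.exp (θ * t)) (ρ : ℂ) (hρ : FF ρ = 0) (hre : θ < ρ.re) :
    DD (deriv g) ρ = 0 := by
  have hFFd : Differentiable ℂ FF := ZU.J_g2b.FF_diff
  have hFF' : Differentiable ℂ (deriv FF) := by
    intro s
    exact (hFFd.analyticAt s).deriv.differentiableAt
  have hds : Differentiable ℂ (dslope FF 1) := by
    have := (Complex.differentiableOn_dslope (f := FF) (s := univ) (c := 1) univ_mem).2
      hFFd.differentiableOn
    exact differentiableOn_univ.1 this
  set u : ℂ → ℂ := fun s => s * ∫ t : ℝ, (SG aL g t : ℂ) * cexp (-s * t) with hu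
  have hud : ∀ s : ℂ, θ < s.re → DifferentiableAt ℂ u s := by
    intro s hs
    have d1 := SG_diff hg (by simp [aL]) C θ hb s hs
    exact differentiableAt_id.mul d1
  set w : ℂ → ℂ := fun s => deriv FF s + FF s * dslope FF 1 s with hw
  have hwd : Differentiable ℂ w := hFF'.add (hFFd.mul hds)
  have key : ∀ s : ℂ, θ < s.re → FF s * u s = -(w s * DD (deriv g) s) := by
    refine half_id θ h3 (fun s => FF s * u s) (fun s => -(w s * DD (deriv g) s)) ?_ ?_ ?_
    · intro s hs
      exact (hFFd s).mul (hud s hs)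
    · intro s _
      exact ((hwd s).mul (hg.tf.diff s)).neg
    · intro s hs
      have hne1 : s ≠ 1 := by
        rintro rfl
        norm_num at hs
      have hs1 : s - 1 ≠ 0 := sub_ne_zero.2 hne1
      have hs0 : s ≠ 0 := by
        rintro rfl
        norm_num at hs
      have hz : riemannZeta s ≠ 0 := riemannZeta_ne_zero_of_one_lt_re (by linarith)
      have hder : deriv FF s = riemannZeta s + (s - 1) * deriv riemannZeta s := by
        have e3 : FF =ᶠ[𝓝 s] fun z => (z - 1) * riemannZeta z := by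
          filter_upwards [isOpen_ne.mem_nhds hne1] with z hz using ZU.J_g2b.FF_ne hz
        rw [e3.deriv_eq]
        have h4 : HasDerivAt (fun z : ℂ => z - 1) 1 s := (hasDerivAt_id s).sub_const 1
        have h5 : HasDerivAt riemannZeta (deriv riemannZeta s) s := (differentiableAt_riemannZeta hne1).hasDerivAt
        have h6 := (h4.fun_mul h5).deriv
        rw [h6]
        ring
      simp only [hu, hw]
      rw [SG_laplace hg (by simp [aL]) aL_summable s hs.le, hg.laplace s (by linarith),
        aL_series s (by linarith), dslope_of_ne _ hne1, slope_def_field,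
        show FF 1 = 1 from ZU.J_g2b.FF_one, hder,
        show FF s = (s - 1) * riemannZeta s from ZU.J_g2b.FF_ne hne1]
      field_simp
      ring
  by_contra hne
  have hDa : AnalyticAt ℂ (DD (deriv g)) ρ := by
    have : Differentiable ℂ (DD (deriv g)) := hg.tf.diff
    exact this.analyticAt ρ
  have hua : AnalyticAt ℂ u ρ := by
    have ho : IsOpen {s : ℂ | θ < s.re} := isOpen_lt continuous_const Complex.continuous_re
    have : DifferentiableOn ℂ u {s : ℂ | θ < s.re} := fun s hs => (hud s hs).differentiableWithinAt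
    exact this.analyticAt (ho.mem_nhds hre)
  have hwa : AnalyticAt ℂ w ρ := hwd.analyticAt ρ
  obtain ⟨m, hm⟩ := Nat.exists_add_one_eq.2 (mu_pos ρ hρ)
  have hmu : analyticOrderAt FF ρ = (m : ℕ∞) + 1 := by
    rw [← mu_cast, ← hm]
    push_cast
    rfl
  have hd1 : analyticOrderAt (deriv FF) ρ = m := analyticOrderAt_deriv_of_pos (FF_anal ρ) hmu
  have hw1 : analyticOrderAt w ρ = m := by
    have e : w = deriv FF + (FF * dslope FF 1) := rfl
    rw [e, analyticOrderAt_add_eq_left_of_lt, hd1]
    rw [hd1, analyticOrderAt_mul (FF_anal ρ) (hds.analyticAt ρ), hmu]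
    refine lt_of_lt_of_le ?_ le_self_add
    exact_mod_cast Nat.lt_succ_self m
  have hD0 : analyticOrderAt (DD (deriv g)) ρ = 0 := hDa.analyticOrderAt_eq_zero.2 hne
  have hev : (fun s => FF s * u s) =ᶠ[𝓝 ρ] fun s => -(w s * DD (deriv g) s) := by
    have ho : IsOpen {s : ℂ | θ < s.re} := isOpen_lt continuous_const Complex.continuous_re
    filter_upwards [ho.mem_nhds hre] with s hs using key s hs
  have ho1 : analyticOrderAt (fun s => FF s * u s) ρ = analyticOrderAt FF ρ + analyticOrderAt u ρ :=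
    analyticOrderAt_mul (FF_anal ρ) hua
  have ho2 : analyticOrderAt (fun s => -(w s * DD (deriv g) s)) ρ = m := by
    have e : (fun s => -(w s * DD (deriv g) s)) = -(w * DD (deriv g)) := rfl
    rw [e, analyticOrderAt_neg, analyticOrderAt_mul hwa hDa, hw1, hD0, add_zero]
  have h5 := analyticOrderAt_congr hev
  rw [ho1, ho2, hmu] at h5
  have h6 : (m : ℕ∞) + 1 ≤ m := by
    calc (m : ℕ∞) + 1 ≤ (m : ℕ∞) + 1 + analyticOrderAt u ρ := le_self_add
      _ = m := h5
  have h7 : m + 1 ≤ m := by exact_mod_cast h6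
  omega

/-- a monotone step whose transform vanishes at `ρ` is long -/
theorem mono_long (hL : 0 < L) (hg : ST L g) (hm : Monotone g) (ρ : ℂ) (hz : DD (deriv g) ρ = 0) :
    Real.pi < L * |ρ.im| := by
  by_contra hcon
  push Not at hcon
  have hg' : Continuous (deriv g) := (contDiff_infty_iff_deriv.1 hg.smooth).2.continuous
  have hpos : ∀ t, 0 ≤ deriv g t := fun t => hm.deriv_nonneg
  set γ := ρ.im with hγ
  -- the imaginary part
  have hint := hg.tf.integrable (fun t => cexp (-ρ * t)) (by fun_prop)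
  have him : ∫ t : ℝ, deriv g t * (Real.exp (-ρ.re * t) * Real.sin (γ * t)) = 0 := by
    have h1 : (DD (deriv g) ρ).im = ∫ t : ℝ, (((deriv g t : ℝ) : ℂ) * cexp (-ρ * t)).im := by
      unfold DD
      exact (integral_im hint).symm
    rw [hz] at h1
    have h2 : ∀ t : ℝ, (((deriv g t : ℝ) : ℂ) * cexp (-ρ * t)).im =
        -(deriv g t * (Real.exp (-ρ.re * t) * Real.sin (γ * t))) := by
      intro t
      rw [Complex.im_ofReal_mul, Complex.exp_im]
      have e1 : (-ρ * (t:ℂ)).re = -ρ.re * t := by simp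
      have e2 : (-ρ * (t:ℂ)).im = -(γ * t) := by simp [hγ]
      rw [e1, e2, Real.sin_neg]
      ring
    simp_rw [h2] at h1
    rw [integral_neg] at h1
    have : (0:ℂ).im = 0 := rfl
    rw [this] at h1
    linarith
  have hre0 : ρ.im ≠ 0 := by
    intro h0
    -- then the transform at a real point is positive
    have h1 : (DD (deriv g) ρ).re = ∫ t : ℝ, (((deriv g t : ℝ) : ℂ) * cexp (-ρ * t)).re := by
      unfold DD
      exact (integral_re hint).symm
    rw [hz] at h1
    have h2 : ∀ t : ℝ, (((deriv g t : ℝ) : ℂ) * cexp (-ρ * t)).re = deriv g t * Real.exp (-ρ.re * t) := by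
      intro t
      rw [Complex.re_ofReal_mul, Complex.exp_re]
      have e1 : (-ρ * (t:ℂ)).re = -ρ.re * t := by simp
      have e2 : (-ρ * (t:ℂ)).im = -(γ * t) := by simp [hγ]
      rw [e1, e2, hγ, h0, zero_mul, neg_zero, Real.cos_zero, mul_one]
    simp_rw [h2] at h1
    have hi2 : Integrable (fun t : ℝ => deriv g t * Real.exp (-ρ.re * t)) := by
      have := hint.re
      refine this.congr (ae_of_all _ fun t => ?_)
      exact h2 t
    have h3 : (fun t : ℝ => deriv g t * Real.exp (-ρ.re * t)) =ᵐ[volume] 0 := by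
      rw [← integral_eq_zero_iff_of_nonneg (fun t => mul_nonneg (hpos t) (Real.exp_pos _).le) hi2]
      exact h1.symm
    have hc : Continuous (fun t : ℝ => deriv g t * Real.exp (-ρ.re * t)) := by fun_prop
    have h4 := (Continuous.ae_eq_iff_eq volume hc continuous_zero).1 h3
    have h5 : ∀ t, deriv g t = 0 := by
      intro t
      have := congrFun h4 t
      simp only [Pi.zero_apply, mul_eq_zero] at this
      rcases this with h | h
      · exact h
      · exact absurd h (Real.exp_pos _).ne'
    have h6 := is_const_of_deriv_eq_zero (contDiff_infty_iff_deriv.1 hg.smooth).1 h5 0 L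
    rw [hg.zero 0 le_rfl, hg.one L le_rfl] at h6
    exact zero_ne_one h6
  have hγ0 : 0 < |γ| := abs_pos.2 hre0
  have him2 : ∫ t : ℝ, deriv g t * (Real.exp (-ρ.re * t) * Real.sin (|γ| * t)) = 0 := by
    rcases abs_choice γ with h | h
    · rw [h]; exact him
    · rw [h]
      have : ∀ t : ℝ, deriv g t * (Real.exp (-ρ.re * t) * Real.sin (-γ * t)) =
          -(deriv g t * (Real.exp (-ρ.re * t) * Real.sin (γ * t))) := by
        intro t
        rw [show -γ * t = -(γ * t) by ring, Real.sin_neg]
        ring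
      simp_rw [this]
      rw [integral_neg, him, neg_zero]
  have hnn : ∀ t, 0 ≤ deriv g t * (Real.exp (-ρ.re * t) * Real.sin (|γ| * t)) := by
    intro t
    by_cases ht : t ∈ Icc 0 L
    · have h1 : 0 ≤ |γ| * t := mul_nonneg hγ0.le ht.1
      have h2 : |γ| * t ≤ Real.pi := by
        have := mul_le_mul_of_nonneg_left ht.2 hγ0.le
        linarith
      exact mul_nonneg (hpos t) (mul_nonneg (Real.exp_pos _).le (Real.sin_nonneg_of_nonneg_of_le_pi h1 h2))
    · rw [hg.tf.supp t ht, zero_mul]
  have hi3 : Integrable (fun t : ℝ => deriv g t * (Real.exp (-ρ.re * t) * Real.sin (|γ| * t))) := by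
    refine Continuous.integrable_of_hasCompactSupport (by fun_prop) ?_
    exact HasCompactSupport.intro isCompact_Icc fun t ht => by rw [hg.tf.supp t ht, zero_mul]
  have h3 : (fun t : ℝ => deriv g t * (Real.exp (-ρ.re * t) * Real.sin (|γ| * t))) =ᵐ[volume] 0 := by
    rw [← integral_eq_zero_iff_of_nonneg hnn hi3]
    exact him2
  have hc : Continuous (fun t : ℝ => deriv g t * (Real.exp (-ρ.re * t) * Real.sin (|γ| * t))) := by fun_prop
  have h4 := (Continuous.ae_eq_iff_eq volume hc continuous_zero).1 h3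
  have h5 : ∀ t ∈ interior (Icc 0 L), deriv g t = 0 := by
    intro t ht
    rw [interior_Icc] at ht
    have := congrFun h4 t
    simp only [Pi.zero_apply, mul_eq_zero] at this
    rcases this with h | h | h
    · exact h
    · exact absurd h (Real.exp_pos _).ne'
    · have h1 : 0 < |γ| * t := mul_pos hγ0 ht.1
      have h2 : |γ| * t < Real.pi := by
        have := mul_lt_mul_of_pos_left ht.2 hγ0
        linarith
      exact absurd h (Real.sin_pos_of_pos_of_lt_pi h1 h2).ne'
  have h6 : g 0 = g L := by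
    have hanti : AntitoneOn g (Icc 0 L) :=
      antitoneOn_of_deriv_nonpos (convex_Icc 0 L) hg.smooth.continuous.continuousOn
        ((contDiff_infty_iff_deriv.1 hg.smooth).1.differentiableOn) (fun t ht => (h5 t ht).le)
    have h7 := hanti (left_mem_Icc.2 hL.le) (right_mem_Icc.2 hL.le) hL.le
    exact le_antisymm (hm hL.le) h7
  rw [hg.zero 0 le_rfl, hg.one L le_rfl] at h6
  exact zero_ne_one h6

end

end H353
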