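import Pool.Agent.H353R3.S5

open Complex MeasureTheory ProbabilityTheory Filter Topology Set Metric
open scoped ContDiff

set_option linter.unusedSectionVars false

namespace H353

noncomputable section

theorem RH_of (h : ∀ s : ℂ, 1 / 2 < s.re → s ≠ 1 → riemannZeta s ≠ 0) : RiemannHypothesis := by
  intro s hs htriv h1
  by_contra hne
  rcases lt_or_gt_of_ne hne with hlt | hgt
  · by_cases h0 : s.re < 0
    · -- trivial zeros
      have h2 : ∀ n : ℕ, (1 - s) ≠ -n := by
        intro n hn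
        have := congrArg Complex.re hn
        simp at this
        have : (0:ℝ) ≤ n := Nat.cast_nonneg n
        linarith
      have h3 : (1 - s) ≠ 1 := by
        intro h3
        have := congrArg Complex.re h3
        simp at this
        linarith
      have key := riemannZeta_one_sub h2 h3
      rw [sub_sub_cancel, hs] at key
      have hz : riemannZeta (1 - s) ≠ 0 := riemannZeta_ne_zero_of_one_lt_re (by simp; linarith)
      have hG : Complex.Gamma (1 - s) ≠ 0 := Complex.Gamma_ne_zero h2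
      have hp : (2 * (Real.pi : ℂ)) ^ (-(1 - s)) ≠ 0 := by
        rw [Complex.cpow_ne_zero_iff]
        left
        have := Real.pi_ne_zero
        simpa using this
      have hc : Complex.cos (Real.pi * (1 - s) / 2) = 0 := by
        by_contra hc
        exact (mul_ne_zero (mul_ne_zero (mul_ne_zero (mul_ne_zero two_ne_zero hp) hG) hc) hz) key.symm
      rw [Complex.cos_eq_zero_iff] at hc
      obtain ⟨k, hk⟩ := hc
      have hpi : (Real.pi : ℂ) ≠ 0 := by exact_mod_cast Real.pi_ne_zero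
      have hs2 : s = -2 * (k : ℂ) := by
        field_simp at hk
        linear_combination (-1 : ℂ) * hk
      have hkpos : 0 < k := by
        have := congrArg Complex.re hs2
        simp at this
        have h5 : (0:ℝ) < k := by linarith
        exact_mod_cast h5
      apply htriv
      refine ⟨(k - 1).toNat, ?_⟩
      have h6 : (((k - 1).toNat : ℕ) : ℂ) = (k : ℂ) - 1 := by
        have : (((k - 1).toNat : ℤ)) = k - 1 := Int.toNat_of_nonneg (by omega)
        have h7 : (((k - 1).toNat : ℤ) : ℂ) = ((k - 1 : ℤ) : ℂ) := by rw [this]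
        push_cast at h7
        exact_mod_cast h7
      rw [h6, hs2]
      ring
    · have h2 : ∀ n : ℕ, s ≠ -n := by
        intro n hn
        rcases Nat.eq_zero_or_pos n with h5 | h5
        · rw [hn, h5] at hs
          simp [riemannZeta_zero] at hs
        · have := congrArg Complex.re hn
          simp at this
          have h6 : (1:ℝ) ≤ n := by exact_mod_cast h5
          linarith
      have key := riemannZeta_one_sub h2 h1
      rw [hs, mul_zero] at key
      refine h (1 - s) (by simp; linarith) ?_ key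
      intro h3
      have : s = 0 := by linear_combination -h3
      rw [this] at hs
      simp [riemannZeta_zero] at hs
  · exact h s hgt h1 hs

/-- smooth cutoffs of length `A` -/
def CutW (A : ℝ) (W : ℝ → ℝ) : Prop :=
  ContDiff ℝ ∞ W ∧ (∀ y ≤ 1, W y = 0) ∧ ∀ y, A ≤ y → W y = 1

/-- bound for the smoothed sum of `a` -/
def bdW (a : ℕ → ℝ) (θ : ℝ) (W : ℝ → ℝ) : Prop :=
  ∃ C : ℝ, ∀ x : ℝ, 1 ≤ x → |∑ n ∈ Finset.Icc 1 ⌊x⌋₊, a n * W (x / n)| ≤ C * x ^ θ

/-- from the logarithmic variable to the multiplicative one -/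
def wg (g : ℝ → ℝ) (y : ℝ) : ℝ := if 0 < y then g (Real.log y) else 0

variable {A L : ℝ} {g W : ℝ → ℝ} {a : ℕ → ℝ}

theorem wg_cut (hg : ST L g) : CutW (Real.exp L) (wg g) := by
  refine ⟨?_, ?_, ?_⟩
  · rw [contDiff_iff_contDiffAt]
    intro y
    by_cases hy : y < 1
    · have : wg g =ᶠ[𝓝 y] fun _ => 0 := by
        filter_upwards [Iio_mem_nhds hy] with z hz
        unfold wg
        split_ifs with h
        · exact hg.zero _ (Real.log_nonpos h.le (le_of_lt hz))
        · rfl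
      exact contDiffAt_const.congr_of_eventuallyEq this
    · have hy0 : 0 < y := by linarith [not_lt.1 hy]
      have : wg g =ᶠ[𝓝 y] fun z => g (Real.log z) := by
        filter_upwards [Ioi_mem_nhds hy0] with z hz
        unfold wg
        rw [if_pos (show 0 < z from hz)]
      refine ContDiffAt.congr_of_eventuallyEq ?_ this
      exact hg.smooth.contDiffAt.comp y (Real.contDiffAt_log.2 hy0.ne')
  · intro y hy
    unfold wg
    split_ifs with h
    · exact hg.zero _ (Real.log_nonpos h.le hy)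
    · rfl
  · intro y hy
    have hA : 0 < Real.exp L := Real.exp_pos _
    unfold wg
    rw [if_pos (by linarith)]
    refine hg.one _ ?_
    rw [Real.le_log_iff_exp_le (by linarith)]
    exact hy

theorem wg_mono (hg : ST L g) (hm : Monotone g) : Monotone (wg g) := by
  have hnn : ∀ t, 0 ≤ g t := fun t => by
    have := hm (min_le_left t 0)
    rwa [hg.zero _ (min_le_right t 0)] at this
  intro y z hyz
  unfold wg
  by_cases hy : 0 < y
  · rw [if_pos hy, if_pos (by linarith)]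
    exact hm (Real.log_le_log hy hyz)
  · rw [if_neg hy]
    split_ifs
    · exact hnn _
    · exact le_rfl

theorem cut_ST (hA : 1 < A) (hW : CutW A W) : ST (Real.log A) (fun t => W (Real.exp t)) := by
  refine ⟨hW.1.comp Real.contDiff_exp, fun t ht => ?_, fun t ht => ?_⟩
  · exact hW.2.1 _ (Real.exp_le_one_iff.2 ht)
  · refine hW.2.2 _ ?_
    rw [← Real.exp_log (by linarith : 0 < A)]
    exact Real.exp_le_exp.2 ht

theorem SG_eq (hg : ST L g) (ha0 : a 0 = 0) (x : ℝ) (hx0 : 0 < x) :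
    SG a g (Real.log x) = ∑ n ∈ Finset.Icc 1 ⌊x⌋₊, a n * g (Real.log (x / n)) := by
  unfold SG
  rw [tsum_eq_sum (s := Finset.Icc 1 ⌊x⌋₊)]
  · refine Finset.sum_congr rfl fun n hn => ?_
    rw [Finset.mem_Icc] at hn
    have hn0 : (0:ℝ) < n := by exact_mod_cast hn.1
    rw [Real.log_div hx0.ne' hn0.ne']
  · intro n hn
    by_cases h0 : n = 0
    · simp [h0, ha0]
    · have hn1 : 1 ≤ n := Nat.one_le_iff_ne_zero.2 h0
      have hn2 : ⌊x⌋₊ < n := by
        by_contra h'
        exact hn (Finset.mem_Icc.2 ⟨hn1, not_lt.1 h'⟩)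
      have hn3 : x < n := (Nat.floor_lt hx0.le).1 hn2
      have := Real.log_lt_log hx0 hn3
      rw [hg.zero _ (by linarith), mul_zero]

theorem wg_bd (hg : ST L g) (ha0 : a 0 = 0) (θ : ℝ)
    (hb : ∃ C : ℝ, 0 < C ∧ ∀ t : ℝ, |∑' n : ℕ, a n * g (t - Real.log n)| ≤ C * Real.exp (θ * t)) :
    bdW a θ (wg g) := by
  obtain ⟨C, _, hC⟩ := hb
  refine ⟨C, fun x hx => ?_⟩
  have hx0 : 0 < x := by linarith
  have h1 := hC (Real.log x)
  have h2 : ∑' n : ℕ, a n * g (Real.log x - Real.log n) = SG a g (Real.log x) := rfl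
  rw [h2, SG_eq hg ha0 x hx0] at h1
  have h3 : ∑ n ∈ Finset.Icc 1 ⌊x⌋₊, a n * g (Real.log (x / n)) =
      ∑ n ∈ Finset.Icc 1 ⌊x⌋₊, a n * wg g (x / n) := by
    refine Finset.sum_congr rfl fun n hn => ?_
    rw [Finset.mem_Icc] at hn
    have hn0 : (0:ℝ) < n := by exact_mod_cast hn.1
    unfold wg
    rw [if_pos (by positivity)]
  rw [h3] at h1
  refine h1.trans (le_of_eq ?_)
  rw [Real.rpow_def_of_pos hx0]
  ring_nf

theorem bd_SG (hA : 1 < A) (hW : CutW A W) (ha0 : a 0 = 0) (θ : ℝ) (hb : bdW a θ W) :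
    ∃ C : ℝ, ∀ t : ℝ, |SG a (fun t => W (Real.exp t)) t| ≤ C * Real.exp (θ * t) := by
  obtain ⟨C, hC⟩ := hb
  have hg := cut_ST hA hW
  refine ⟨C, fun t => ?_⟩
  have hC0 : 0 ≤ C := by
    have := (abs_nonneg _).trans (hC 1 le_rfl)
    simpa using this
  by_cases ht : t ≤ 0
  · rw [SG_neg hg ha0 t ht, abs_zero]
    positivity
  · have hx : 1 ≤ Real.exp t := by
      rw [Real.one_le_exp_iff]
      linarith
    have hx0 := Real.exp_pos t
    have h1 := hC (Real.exp t) hx
    have h2 := SG_eq hg ha0 (Real.exp t) hx0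
    rw [Real.log_exp] at h2
    rw [h2]
    have h3 : ∑ n ∈ Finset.Icc 1 ⌊Real.exp t⌋₊, a n * W (Real.exp (Real.log (Real.exp t / n))) =
        ∑ n ∈ Finset.Icc 1 ⌊Real.exp t⌋₊, a n * W (Real.exp t / n) := by
      refine Finset.sum_congr rfl fun n hn => ?_
      rw [Finset.mem_Icc] at hn
      have hn0 : (0:ℝ) < n := by exact_mod_cast hn.1
      rw [Real.exp_log (by positivity)]
    beta_reduce
    rw [h3]
    refine h1.trans (le_of_eq ?_)
    rw [Real.rpow_def_of_pos hx0, Real.log_exp]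
    ring_nf

/-- signed cutoffs at every scale -/
theorem W_signed (A θ : ℝ) (hA : 1 < A) (h1 : 1 / 2 < θ) (h2 : θ < 1) :
    ∃ W : ℝ → ℝ, CutW A W ∧ bdW aM θ W ∧ bdW aL θ W := by
  have hL : 0 < Real.log A := Real.log_pos hA
  obtain ⟨g, hg⟩ := good_signed (Real.log A) θ hL h1 h2
  refine ⟨wg g, ?_, wg_bd hg.st aM_zero θ hg.mu, wg_bd hg.st (by simp [aL]) θ hg.lam⟩
  have := wg_cut hg.st
  rwa [Real.exp_log (by linarith)] at this

/-- monotone cutoffs at a suitable scale -/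
theorem W_mono (θ : ℝ) (h1 : 1 / 2 < θ) (h2 : θ < 1) :
    ∃ W : ℝ → ℝ, CutW (AA θ) W ∧ Monotone W ∧ bdW aM θ W ∧ bdW aL θ W := by
  obtain ⟨g, hg, hm⟩ := good_mono (1 - θ) θ (by linarith) h1 h2
  exact ⟨wg g, wg_cut hg.st, wg_mono hg.st hm, wg_bd hg.st aM_zero θ hg.mu,
    wg_bd hg.st (by simp [aL]) θ hg.lam⟩

/-- monotone cutoffs at every scale from a zero-free half plane -/
theorem W_mono_of_free (A σ θ : ℝ) (hA : 1 < A) (h0 : 1 / 2 < σ) (h1 : σ < θ) (h2 : θ < 1)
    (hfree : ∀ s : ℂ, σ ≤ s.re → s ≠ 1 → riemannZeta s ≠ 0) :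
    ∃ W : ℝ → ℝ, CutW A W ∧ Monotone W ∧ bdW aM θ W ∧ bdW aL θ W := by
  have hL : 0 < Real.log A := Real.log_pos hA
  have hno : ∀ ρ : ℂ, FF ρ = 0 → σ ≤ ρ.re → False := by
    intro ρ hρ hre
    have h1 : ρ ≠ 1 := by
      rintro rfl
      rw [show FF 1 = 1 from ZU.J_g2b.FF_one] at hρ
      exact one_ne_zero hρ
    rw [show FF ρ = (ρ - 1) * riemannZeta ρ from ZU.J_g2b.FF_ne h1] at hρ
    rcases mul_eq_zero.1 hρ with h | h
    · exact h1 (sub_eq_zero.1 h)
    · exact hfree ρ hre h1 h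
  have hK : Kill σ (fun _ => (1:ℂ)) := by
    refine ⟨differentiable_const _, ⟨1, 0, one_pos, fun s _ => by simp⟩, fun ρ hρ hre => ?_⟩
    exact absurd (hno ρ hρ hre) (by simp)
  have hf := Ph_ST (Real.log A) hL
  -- trivial average
  have e1 : ∀ t, Av (fun _ : Fin 0 => (0:ℝ)) (fun _ : Fin 0 => (0:ℝ)) (Ph (Real.log A)) t = Ph (Real.log A) t := by
    intro t
    unfold Av XX
    simp
  have hGK : ∀ s : ℂ, 0 < s.re → GF (Ph (Real.log A)) s * KK (fun _ : Fin 0 => (0:ℝ)) (fun _ : Fin 0 => (0:ℝ)) s =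
      GG (Real.log A) s * (fun _ => (1:ℂ)) s := by
    intro s _
    have : KK (fun _ : Fin 0 => (0:ℝ)) (fun _ : Fin 0 => (0:ℝ)) s = 1 := by
      unfold KK XX
      simp
    rw [this]
    rfl
  have hs : Summable (fun _ : Fin 0 => (0:ℝ)) := Summable.of_finite
  have hm := core_mu (fun _ : Fin 0 => (0:ℝ)) (fun _ : Fin 0 => (0:ℝ)) (fun i => i.elim0) hs h0 h1 h2 hL hf hK hGK
  have hl := core_lam (fun _ : Fin 0 => (0:ℝ)) (fun _ : Fin 0 => (0:ℝ)) (fun i => i.elim0) hs h0 h1 h2 hL hf hK hGK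
  simp_rw [e1] at hm hl
  refine ⟨wg (Ph (Real.log A)), ?_, wg_mono hf (Ph_mono _ hL), wg_bd hf aM_zero θ hm, wg_bd hf (by simp [aL]) θ hl⟩
  have := wg_cut hf
  rwa [Real.exp_log (by linarith)] at this

/-- a monotone cutoff forces a zero-free region -/
theorem W_box (A θ : ℝ) (hA : 1 < A) (h0 : 0 < θ) (h1 : θ < 1) (hW : CutW A W) (hm : Monotone W)
    (hb : bdW aM θ W ∨ bdW aL θ W) (ρ : ℂ) (hz : riemannZeta ρ = 0) (hre : θ < ρ.re) :
    Real.pi < Real.log A * |ρ.im| := by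
  have hL : 0 < Real.log A := Real.log_pos hA
  have hg := cut_ST hA hW
  have hgm : Monotone (fun t => W (Real.exp t)) := fun s t hst => hm (Real.exp_le_exp.2 hst)
  have hne : ρ ≠ 1 := by
    rintro rfl
    exact riemannZeta_one_ne_zero hz
  have hFF : FF ρ = 0 := by
    rw [show FF ρ = (ρ - 1) * riemannZeta ρ from ZU.J_g2b.FF_ne hne, hz, mul_zero]
  refine mono_long hL hg hgm ρ ?_
  rcases hb with hb | hb
  · obtain ⟨C, hC⟩ := bd_SG hA hW aM_zero θ hb
    exact DD_zero_mu hg θ C h0 h1 hC ρ hFF hre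
  · obtain ⟨C, hC⟩ := bd_SG hA hW (by simp [aL]) θ hb
    exact DD_zero_lam hg θ C h0 h1 hC ρ hFF hre

/-- monotone cutoffs at all scales: zero-free half plane -/
theorem W_free (θ : ℝ) (h0 : 0 < θ) (h1 : θ < 1)
    (h : ∀ A : ℝ, 1 < A → ∃ W : ℝ → ℝ, CutW A W ∧ Monotone W ∧ (bdW aM θ W ∨ bdW aL θ W)) (ρ : ℂ)
    (hre : θ < ρ.re) : riemannZeta ρ ≠ 0 := by
  intro hz
  set γ := |ρ.im| + 1 with hγ
  have hγ0 : 0 < γ := by positivity
  obtain ⟨W, hW, hm, hb⟩ := h (Real.exp (Real.pi / γ)) (Real.one_lt_exp_iff.2 (div_pos Real.pi_pos hγ0))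
  have key := W_box (Real.exp (Real.pi / γ)) θ (Real.one_lt_exp_iff.2 (div_pos Real.pi_pos hγ0)) h0 h1
    hW hm hb ρ hz hre
  rw [Real.log_exp, div_mul_eq_mul_div, lt_div_iff₀ hγ0] at key
  have : Real.pi * |ρ.im| ≤ Real.pi * γ := by
    refine mul_le_mul_of_nonneg_left ?_ Real.pi_pos.le
    rw [hγ]; linarith
  linarith

end

end H353
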