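import Pool.Agent.H353R3.S6
import Pool.Agent.H353R2.FA

open MeasureTheory Filter Topology Set
open scoped ContDiff
open H332.FL (sw)
open H353.FB

namespace H353

noncomputable section

theorem farey_main2 (θ : ℝ) (hθ : 1 / 2 < θ) (W : ℝ → ℝ) (h0 : ∀ y ≤ 1, W y = 0)
    (B : ℝ) (hB1 : 1 ≤ B) (hB : ∀ y, |W y| ≤ B) (C : ℝ)
    (hC : ∀ x : ℝ, 1 ≤ x → |∑ n ∈ Finset.Icc 1 ⌊x⌋₊,
      (ArithmeticFunction.moebius n : ℝ) * W (x / n)| ≤ C * x ^ θ) :
    ∃ C' : ℝ, ∀ x : ℝ, 1 ≤ x →
      ∫ t in (0:ℝ)..1, (∑ n ∈ Finset.Icc 1 ⌊x⌋₊, (W (x / n) - W (x / (n + 1))) *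
        ((((farey n).filter (fun f : ℚ => (f : ℝ) ≤ t)).card : ℝ) - (farey n).card * t)) ^ 2 ≤
      C' * x ^ (2 * θ) := by
  obtain ⟨K, hK, hq⟩ := H332.FL.quad_bound θ hθ
  refine ⟨2 * (K * C ^ 2) + B ^ 2 / 2, fun x hx => ?_⟩
  set N := ⌊x⌋₊ with hN
  have hx0 : 0 < x := by linarith
  have hC0 : 0 ≤ C := by
    have := (abs_nonneg _).trans (hC x hx)
    have hp : 0 < x ^ θ := Real.rpow_pos_of_pos hx0 _
    by_contra h
    push Not at h
    nlinarith
  set c : ℕ → ℝ := fun d => ∑ n ∈ Finset.Icc 1 N, wn W x n * Mx ((n : ℝ) / d) with hc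
  have hcb : ∀ d ∈ Finset.Icc 1 N, |c d| ≤ (C * x ^ θ) * (d : ℝ) ^ (-θ) := by
    intro d hd
    rw [Finset.mem_Icc] at hd
    have hd0 : (0:ℝ) < d := by exact_mod_cast hd.1
    have hdx : (d:ℝ) ≤ x := (Nat.le_floor_iff hx0.le).1 hd.2
    rw [hc]
    simp only
    rw [coef_eq W h0 x hx d hd.1]
    have := hC (x / d) ((one_le_div hd0).2 hdx)
    refine this.trans (le_of_eq ?_)
    rw [Real.div_rpow hx0.le hd0.le, Real.rpow_neg hd0.le]
    ring
  have hb := hq N c (C * x ^ θ) (by positivity) hcb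
  set b : ℝ := ∑ n ∈ Finset.Icc 1 N, wn W x n with hbdef
  have hb01 : |b| ≤ B := by
    have e := wn_tele W x 1 N (by omega)
    have e3 : W (x / ((N : ℝ) + 1)) = 0 := by
      apply h0
      have hN1 : (0:ℝ) < (N:ℝ) + 1 := by positivity
      rw [div_le_one hN1]
      exact (Nat.lt_floor_add_one x).le
    rw [e3, sub_zero] at e
    rw [hbdef, e]
    exact hB _
  have hpt : ∀ t ∈ Icc (0:ℝ) 1, (∑ n ∈ Finset.Icc 1 N, (W (x / n) - W (x / (n + 1))) *
        ((((farey n).filter (fun f : ℚ => (f : ℝ) ≤ t)).card : ℝ) - (farey n).card * t)) =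
      -(∑ d ∈ Finset.Icc 1 N, c d * sw ((d : ℝ) * t)) - b / 2 := by
    intro t ht
    have e1 : ∀ n ∈ Finset.Icc 1 N, (W (x / n) - W (x / (n + 1))) *
        ((((farey n).filter (fun f : ℚ => (f : ℝ) ≤ t)).card : ℝ) - (farey n).card * t) =
        wn W x n * (-(∑ d ∈ Finset.Icc 1 N, Mx ((n : ℝ) / d) * sw ((d : ℝ) * t))) - wn W x n / 2 := by
      intro n hn
      rw [Finset.mem_Icc] at hn
      have e2 := cnt_sub hn.1 ht.1 ht.2
      have e3 : cnt n t = (((farey n).filter (fun f : ℚ => (f : ℝ) ≤ t)).card : ℝ) := by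
        unfold cnt
        rw [← Finset.sum_filter, Finset.sum_const, nsmul_eq_mul, mul_one]
      rw [e3] at e2
      rw [e2]
      unfold Ef
      have e4 : ∑ d ∈ Finset.Icc 1 n, Mx ((n : ℝ) / d) * sw ((d : ℝ) * t) =
          ∑ d ∈ Finset.Icc 1 N, Mx ((n : ℝ) / d) * sw ((d : ℝ) * t) := by
        refine Finset.sum_subset (Finset.Icc_subset_Icc_right hn.2) fun d hd hd2 => ?_
        rw [Finset.mem_Icc] at hd hd2
        have hlt : n < d := by
          by_contra h
          exact hd2 ⟨hd.1, not_lt.1 h⟩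
        rw [Mx_div, Nat.div_eq_of_lt hlt]
        simp
      rw [e4]
      unfold wn
      ring
    rw [Finset.sum_congr rfl e1, Finset.sum_sub_distrib, ← Finset.sum_div]
    congr 1
    simp_rw [mul_neg]
    rw [Finset.sum_neg_distrib]
    congr 1
    simp_rw [Finset.mul_sum]
    rw [Finset.sum_comm]
    refine Finset.sum_congr rfl fun d _ => ?_
    rw [hc]
    simp only
    rw [Finset.sum_mul]
    exact Finset.sum_congr rfl fun n _ => by ring
  have hSm : Measurable (fun t : ℝ => ∑ d ∈ Finset.Icc 1 N, c d * sw ((d : ℝ) * t)) := by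
    refine Finset.measurable_sum _ fun d _ => Measurable.const_mul ?_ _
    exact H332.FL.measurable_sw_comp (by fun_prop)
  have hSb : ∀ t, |∑ d ∈ Finset.Icc 1 N, c d * sw ((d : ℝ) * t)| ≤ ∑ d ∈ Finset.Icc 1 N, |c d| := by
    intro t
    refine (Finset.abs_sum_le_sum_abs _ _).trans (Finset.sum_le_sum fun d _ => ?_)
    rw [abs_mul]
    exact mul_le_of_le_one_right (abs_nonneg _) ((H332.FL.abs_sw_le _).trans (by norm_num))
  have hSi : IntervalIntegrable (fun t : ℝ => (∑ d ∈ Finset.Icc 1 N, c d * sw ((d : ℝ) * t)) ^ 2)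
      volume 0 1 := by
    refine (intervalIntegrable_const (c := (∑ d ∈ Finset.Icc 1 N, |c d|) ^ 2)).mono_fun ?_ ?_
    · exact (hSm.pow_const 2).aestronglyMeasurable
    · refine Filter.Eventually.of_forall fun t => ?_
      beta_reduce
      rw [Real.norm_of_nonneg (sq_nonneg _), Real.norm_of_nonneg (sq_nonneg _), ← sq_abs (∑ d ∈ Finset.Icc 1 N, c d * sw ((d : ℝ) * t))]
      exact pow_le_pow_left₀ (abs_nonneg _) (hSb t) 2
  have hSi2 : IntervalIntegrable (fun t : ℝ => (-(∑ d ∈ Finset.Icc 1 N, c d * sw ((d : ℝ) * t)) - b / 2) ^ 2)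
      volume 0 1 := by
    refine (intervalIntegrable_const (c := ((∑ d ∈ Finset.Icc 1 N, |c d|) + B) ^ 2)).mono_fun ?_ ?_
    · exact ((hSm.neg.sub_const (b / 2)).pow_const 2).aestronglyMeasurable
    · refine Filter.Eventually.of_forall fun t => ?_
      beta_reduce
      rw [Real.norm_of_nonneg (sq_nonneg _), Real.norm_of_nonneg (sq_nonneg _), ← sq_abs (-(∑ d ∈ Finset.Icc 1 N, c d * sw ((d : ℝ) * t)) - b / 2)]
      refine pow_le_pow_left₀ (abs_nonneg _) ?_ 2
      have h2 := abs_sub (-(∑ d ∈ Finset.Icc 1 N, c d * sw ((d : ℝ) * t))) (b / 2)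
      rw [abs_neg] at h2
      have h3 : |b / 2| ≤ B := by
        rw [abs_div, abs_two]
        linarith
      linarith [hSb t]
  have e0 : ∫ t in (0:ℝ)..1, (∑ n ∈ Finset.Icc 1 N, (W (x / n) - W (x / (n + 1))) *
        ((((farey n).filter (fun f : ℚ => (f : ℝ) ≤ t)).card : ℝ) - (farey n).card * t)) ^ 2 =
      ∫ t in (0:ℝ)..1, (-(∑ d ∈ Finset.Icc 1 N, c d * sw ((d : ℝ) * t)) - b / 2) ^ 2 := by
    refine intervalIntegral.integral_congr fun t ht => ?_
    rw [uIcc_of_le zero_le_one] at ht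
    rw [hpt t ht]
  rw [e0]
  have hbsq : b ^ 2 ≤ B ^ 2 := by
    rw [← sq_abs b]
    exact pow_le_pow_left₀ (abs_nonneg _) hb01 2
  have e5 : ∫ t in (0:ℝ)..1, (-(∑ d ∈ Finset.Icc 1 N, c d * sw ((d : ℝ) * t)) - b / 2) ^ 2 ≤
      ∫ t in (0:ℝ)..1, (2 * (∑ d ∈ Finset.Icc 1 N, c d * sw ((d : ℝ) * t)) ^ 2 + B ^ 2 / 2) := by
    refine intervalIntegral.integral_mono_on zero_le_one hSi2 ((hSi.const_mul 2).add intervalIntegrable_const) ?_
    intro t _
    set S := ∑ d ∈ Finset.Icc 1 N, c d * sw ((d : ℝ) * t)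
    nlinarith [sq_nonneg (S - b / 2)]
  refine e5.trans ?_
  rw [intervalIntegral.integral_add (hSi.const_mul 2) intervalIntegrable_const,
    intervalIntegral.integral_const_mul, intervalIntegral.integral_const]
  have hxp : 1 ≤ x ^ (2 * θ) := Real.one_le_rpow hx (by linarith)
  have e6 : (C * x ^ θ) ^ 2 = C ^ 2 * x ^ (2 * θ) := by
    rw [mul_pow, ← Real.rpow_natCast (x ^ θ) 2, ← Real.rpow_mul hx0.le]
    congr 2
    push_cast
    ring
  rw [e6] at hb
  simp only [sub_zero, smul_eq_mul, one_mul]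
  have hB2 : 0 ≤ B ^ 2 / 2 := by positivity
  nlinarith

/-- sums of cosines -/
theorem cos_sum (d : ℕ) (hd : 2 ≤ d) : ∑ h ∈ Finset.Icc 1 d, Real.cos (2 * Real.pi * ((h : ℝ) / d)) = 0 := by
  have hd0 : (d : ℂ) ≠ 0 := by
    have : d ≠ 0 := by omega
    exact_mod_cast this
  have hprim := Complex.isPrimitiveRoot_exp d (by omega)
  have hsum := hprim.geom_sum_eq_zero (by omega)
  have h1 : ∑ h ∈ Finset.Icc 1 d, (Complex.exp (2 * Real.pi * Complex.I / d)) ^ h = 0 := by
    have e1 : Finset.Icc 1 d = Finset.Ico 1 (d + 1) := by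
      ext n
      simp only [Finset.mem_Icc, Finset.mem_Ico]
      omega
    rw [e1, Finset.sum_Ico_eq_sum_range]
    have e2 : ∀ k : ℕ, (Complex.exp (2 * Real.pi * Complex.I / d)) ^ (1 + k) =
        Complex.exp (2 * Real.pi * Complex.I / d) * (Complex.exp (2 * Real.pi * Complex.I / d)) ^ k := by
      intro k
      rw [pow_add, pow_one]
    simp_rw [e2]
    rw [← Finset.mul_sum, Nat.add_sub_cancel, hsum, mul_zero]
  have h2 := congrArg Complex.re h1
  rw [Complex.re_sum] at h2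
  rw [Complex.zero_re] at h2
  rw [← h2]
  refine Finset.sum_congr rfl fun h _ => ?_
  rw [← Complex.exp_nat_mul]
  have e3 : (h : ℂ) * (2 * Real.pi * Complex.I / d) = ((2 * Real.pi * ((h : ℝ) / d) : ℝ) : ℂ) * Complex.I := by
    push_cast
    field_simp
  rw [e3, Complex.exp_ofReal_mul_I_re]

theorem farey_cos (n : ℕ) (hn : 1 ≤ n) :
    ∑ f ∈ farey n, Real.cos (2 * Real.pi * ((f : ℚ) : ℝ)) = Mx n := by
  rw [sum_farey_mertens n (fun f : ℚ => Real.cos (2 * Real.pi * ((f : ℚ) : ℝ)))]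
  rw [Finset.sum_eq_single_of_mem 1 (Finset.mem_Icc.2 ⟨le_rfl, hn⟩)]
  · simp
  · intro d hd hd1
    rw [Finset.mem_Icc] at hd
    have h2 := cos_sum d (by omega)
    have e : ∀ h ∈ Finset.Icc 1 d, Real.cos (2 * Real.pi * (((h : ℚ) / (d : ℚ) : ℚ) : ℝ)) =
        Real.cos (2 * Real.pi * ((h : ℝ) / d)) := by
      intro h _
      push_cast
      rfl
    rw [Finset.sum_congr rfl e, h2, mul_zero]

theorem step_int (f : ℝ) (h0 : 0 < f) (h1 : f ≤ 1) :
    ∫ t in (0:ℝ)..1, (if f ≤ t then (1:ℝ) else 0) * Real.sin (2 * Real.pi * t) =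
      (Real.cos (2 * Real.pi * f) - 1) / (2 * Real.pi) := by
  have hpi : (2 * Real.pi) ≠ 0 := by positivity
  have hi : ∀ a b : ℝ, IntervalIntegrable (fun t : ℝ => (if f ≤ t then (1:ℝ) else 0) * Real.sin (2 * Real.pi * t)) volume a b := by
    intro a b
    refine (intervalIntegrable_const (c := (1:ℝ))).mono_fun ?_ ?_
    · refine Measurable.aestronglyMeasurable ?_
      exact (Measurable.ite (measurableSet_le measurable_const measurable_id) measurable_const measurable_const).mul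
        (by fun_prop)
    · refine Filter.Eventually.of_forall fun t => ?_
      beta_reduce
      rw [norm_mul, Real.norm_eq_abs, Real.norm_eq_abs, norm_one]
      have := Real.abs_sin_le_one (2 * Real.pi * t)
      split_ifs
      · simpa using this
      · simp
  rw [← intervalIntegral.integral_add_adjacent_intervals (hi 0 f) (hi f 1)]
  have e1 : ∫ t in (0:ℝ)..f, (if f ≤ t then (1:ℝ) else 0) * Real.sin (2 * Real.pi * t) = 0 := by
    rw [intervalIntegral.integral_congr_ae (g := fun _ => (0:ℝ))]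
    · simp
    · have : ∀ᵐ t : ℝ, t ≠ f := by
        simp [ae_iff, measure_singleton]
      filter_upwards [this] with t ht hm
      rw [uIoc_of_le h0.le] at hm
      rw [if_neg (not_le.2 (lt_of_le_of_ne hm.2 ht)), zero_mul]
  have e2 : ∫ t in f..1, (if f ≤ t then (1:ℝ) else 0) * Real.sin (2 * Real.pi * t) =
      ∫ t in f..1, Real.sin (2 * Real.pi * t) := by
    refine intervalIntegral.integral_congr fun t ht => ?_
    rw [uIcc_of_le h1] at ht
    beta_reduce
    rw [if_pos ht.1, one_mul]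
  have e3 : ∫ t in f..1, Real.sin (2 * Real.pi * t) = (Real.cos (2 * Real.pi * f) - 1) / (2 * Real.pi) := by
    rw [intervalIntegral.integral_comp_mul_left (fun u => Real.sin u) hpi, integral_sin]
    rw [mul_one, Real.cos_two_pi, smul_eq_mul]
    field_simp
  rw [e1, e2, e3, zero_add]

theorem t_int : ∫ t in (0:ℝ)..1, t * Real.sin (2 * Real.pi * t) = -1 / (2 * Real.pi) := by
  have hpi : (2 * Real.pi) ≠ 0 := by positivity
  have hd : ∀ t ∈ uIcc (0:ℝ) 1, HasDerivAt (fun t => -(t * Real.cos (2 * Real.pi * t)) / (2 * Real.pi) +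
      Real.sin (2 * Real.pi * t) / (2 * Real.pi) ^ 2) (t * Real.sin (2 * Real.pi * t)) t := by
    intro t _
    have h1 : HasDerivAt (fun t : ℝ => 2 * Real.pi * t) (2 * Real.pi) t := by
      simpa using (hasDerivAt_id t).const_mul (2 * Real.pi)
    have h2 := h1.cos
    have h3 := h1.sin
    have h4 := ((((hasDerivAt_id t).fun_mul h2).fun_neg).div_const (2 * Real.pi)).fun_add (h3.div_const ((2 * Real.pi) ^ 2))
    refine h4.congr_deriv ?_
    simp only [id_eq, one_mul]
    field_simp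
    ring
  rw [intervalIntegral.integral_eq_sub_of_hasDerivAt hd]
  · simp
  · exact (by fun_prop : Continuous _).intervalIntegrable _ _

/-- the discrepancy paired with the sine -/
theorem disc_int (n : ℕ) (hn : 1 ≤ n) :
    ∫ t in (0:ℝ)..1, ((((farey n).filter (fun f : ℚ => (f : ℝ) ≤ t)).card : ℝ) - (farey n).card * t) *
      Real.sin (2 * Real.pi * t) = Mx n / (2 * Real.pi) := by
  have hpi : (2 * Real.pi) ≠ 0 := by positivity
  have e0 : ∀ t : ℝ, ((((farey n).filter (fun f : ℚ => (f : ℝ) ≤ t)).card : ℝ) - (farey n).card * t) *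
      Real.sin (2 * Real.pi * t) = (∑ f ∈ farey n, (if ((f : ℚ) : ℝ) ≤ t then (1:ℝ) else 0) * Real.sin (2 * Real.pi * t)) -
        (farey n).card * (t * Real.sin (2 * Real.pi * t)) := by
    intro t
    rw [← Finset.sum_mul, ← Finset.sum_filter, Finset.sum_const, nsmul_eq_mul, mul_one]
    ring
  simp_rw [e0]
  have hi : ∀ f ∈ farey n, IntervalIntegrable (fun t : ℝ => (if ((f : ℚ) : ℝ) ≤ t then (1:ℝ) else 0) * Real.sin (2 * Real.pi * t)) volume 0 1 := by
    intro f _
    refine (intervalIntegrable_const (c := (1:ℝ))).mono_fun ?_ ?_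
    · refine Measurable.aestronglyMeasurable ?_
      exact (Measurable.ite (measurableSet_le measurable_const measurable_id) measurable_const measurable_const).mul
        (by fun_prop)
    · refine Filter.Eventually.of_forall fun t => ?_
      beta_reduce
      rw [norm_mul, Real.norm_eq_abs, Real.norm_eq_abs, norm_one]
      have := Real.abs_sin_le_one (2 * Real.pi * t)
      split_ifs
      · simpa using this
      · simp
  have hS : IntervalIntegrable (fun t : ℝ => ∑ f ∈ farey n, (if ((f : ℚ) : ℝ) ≤ t then (1:ℝ) else 0) * Real.sin (2 * Real.pi * t)) volume 0 1 := by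
    have h5 := IntervalIntegrable.sum (farey n) hi
    have e : (fun t : ℝ => ∑ f ∈ farey n, (if ((f : ℚ) : ℝ) ≤ t then (1:ℝ) else 0) * Real.sin (2 * Real.pi * t)) =
        ∑ f ∈ farey n, fun t : ℝ => (if ((f : ℚ) : ℝ) ≤ t then (1:ℝ) else 0) * Real.sin (2 * Real.pi * t) := by
      funext t
      rw [Finset.sum_apply]
    rw [e]
    exact h5
  have hT : IntervalIntegrable (fun t : ℝ => ((farey n).card : ℝ) * (t * Real.sin (2 * Real.pi * t))) volume 0 1 :=
    (by fun_prop : Continuous _).intervalIntegrable _ _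
  rw [intervalIntegral.integral_sub hS hT, intervalIntegral.integral_finset_sum hi,
    intervalIntegral.integral_const_mul, t_int]
  have e1 : ∀ f ∈ farey n, ∫ t in (0:ℝ)..1, (if ((f : ℚ) : ℝ) ≤ t then (1:ℝ) else 0) * Real.sin (2 * Real.pi * t) =
      Real.cos (2 * Real.pi * ((f : ℚ) : ℝ)) / (2 * Real.pi) - 1 / (2 * Real.pi) := by
    intro f hf
    rw [mem_farey] at hf
    rw [step_int _ (by exact_mod_cast hf.1) (by exact_mod_cast hf.2.1), sub_div]
  rw [Finset.sum_congr rfl e1, Finset.sum_sub_distrib, ← Finset.sum_div, farey_cos n hn, Finset.sum_const,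
    nsmul_eq_mul]
  ring

theorem ii_bdd (f : ℝ → ℝ) (hf : Measurable f) (B : ℝ) (hB : ∀ t ∈ Ioc (0:ℝ) 1, |f t| ≤ B) :
    IntervalIntegrable f volume 0 1 := by
  rw [intervalIntegrable_iff_integrableOn_Ioc_of_le zero_le_one]
  exact Measure.integrableOn_of_bounded (by simp) hf.aestronglyMeasurable (M := B)
    ((ae_restrict_iff' measurableSet_Ioc).2 (ae_of_all _ fun t ht => hB t ht))

/-- the discrepancy function -/
def dsc (n : ℕ) (t : ℝ) : ℝ := (((farey n).filter (fun f : ℚ => (f : ℝ) ≤ t)).card : ℝ) - (farey n).card * t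

theorem dsc_meas (n : ℕ) : Measurable (dsc n) := by
  have e : dsc n = fun t : ℝ => (∑ f ∈ farey n, (if ((f : ℚ) : ℝ) ≤ t then (1:ℝ) else 0)) - (farey n).card * t := by
    funext t
    unfold dsc
    rw [← Finset.sum_filter, Finset.sum_const, nsmul_eq_mul, mul_one]
  rw [e]
  refine Measurable.sub (Finset.measurable_sum _ fun f _ => ?_) (by fun_prop)
  exact Measurable.ite (measurableSet_le measurable_const measurable_id) measurable_const measurable_const

theorem dsc_bdd (n : ℕ) (t : ℝ) (ht : t ∈ Ioc (0:ℝ) 1) : |dsc n t| ≤ (farey n).card := by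
  unfold dsc
  have h1 : (((farey n).filter (fun f : ℚ => (f : ℝ) ≤ t)).card : ℝ) ≤ (farey n).card := by
    exact_mod_cast Finset.card_filter_le _ _
  have h2 : (0:ℝ) ≤ ((farey n).filter (fun f : ℚ => (f : ℝ) ≤ t)).card := Nat.cast_nonneg _
  have h3 : (0:ℝ) ≤ (farey n).card := Nat.cast_nonneg _
  have h4 : ((farey n).card : ℝ) * t ≤ (farey n).card := mul_le_of_le_one_right h3 ht.2
  have h5 : 0 ≤ ((farey n).card : ℝ) * t := mul_nonneg h3 ht.1.le
  rw [abs_le]
  constructor <;> linarith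

theorem farey_conv (r : ℝ) (W : ℝ → ℝ) (h0 : ∀ y ≤ 1, W y = 0) (C : ℝ)
    (hC : ∀ x : ℝ, 1 ≤ x →
      ∫ t in (0:ℝ)..1, (∑ n ∈ Finset.Icc 1 ⌊x⌋₊, (W (x / n) - W (x / (n + 1))) * dsc n t) ^ 2 ≤
      C * x ^ (2 * r)) : bdW aM r W := by
  refine ⟨2 * Real.pi * √C, fun x hx => ?_⟩
  have hx0 : 0 < x := by linarith
  set N := ⌊x⌋₊ with hN
  set E : ℝ → ℝ := fun t => ∑ n ∈ Finset.Icc 1 N, (W (x / n) - W (x / (n + 1))) * dsc n t with hE
  set S : ℝ → ℝ := fun t => Real.sin (2 * Real.pi * t) with hS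
  have hEm : Measurable E := Finset.measurable_sum _ fun n _ => (dsc_meas n).const_mul _
  have hSm : Measurable S := by rw [hS]; fun_prop
  set B : ℝ := ∑ n ∈ Finset.Icc 1 N, |W (x / n) - W (x / (n + 1))| * (farey n).card with hB
  have hEb : ∀ t ∈ Ioc (0:ℝ) 1, |E t| ≤ B := by
    intro t ht
    refine (Finset.abs_sum_le_sum_abs _ _).trans (Finset.sum_le_sum fun n _ => ?_)
    rw [abs_mul]
    exact mul_le_mul_of_nonneg_left (dsc_bdd n t ht) (abs_nonneg _)
  have hSb : ∀ t, |S t| ≤ 1 := fun t => Real.abs_sin_le_one _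
  have hB0 : 0 ≤ B := (abs_nonneg _).trans (hEb 1 ⟨zero_lt_one, le_rfl⟩)
  set J := ∫ t in (0:ℝ)..1, E t * S t with hJ
  -- value of J
  have hJv : J = (∑ n ∈ Finset.Icc 1 N, aM n * W (x / n)) / (2 * Real.pi) := by
    have e1 : ∀ t, E t * S t = ∑ n ∈ Finset.Icc 1 N, (W (x / n) - W (x / (n + 1))) * (dsc n t * S t) := by
      intro t
      rw [hE]
      simp only
      rw [Finset.sum_mul]
      exact Finset.sum_congr rfl fun n _ => by ring
    have hi : ∀ n ∈ Finset.Icc 1 N, IntervalIntegrable (fun t => (W (x / n) - W (x / (n + 1))) * (dsc n t * S t)) volume 0 1 := by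
      intro n _
      refine IntervalIntegrable.const_mul ?_ _
      refine ii_bdd _ ((dsc_meas n).mul hSm) ((farey n).card * 1) fun t ht => ?_
      rw [abs_mul]
      exact mul_le_mul (dsc_bdd n t ht) (hSb t) (abs_nonneg _) (Nat.cast_nonneg _)
    rw [hJ]
    simp_rw [e1]
    rw [intervalIntegral.integral_finsetSum hi]
    have e2 : ∀ n ∈ Finset.Icc 1 N, ∫ t in (0:ℝ)..1, (W (x / n) - W (x / (n + 1))) * (dsc n t * S t) =
        wn W x n * Mx ((n : ℝ) / (1:ℕ)) / (2 * Real.pi) := by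
      intro n hn
      rw [Finset.mem_Icc] at hn
      rw [intervalIntegral.integral_const_mul]
      have e3 : ∫ t in (0:ℝ)..1, dsc n t * S t = Mx n / (2 * Real.pi) := disc_int n hn.1
      rw [e3]
      unfold wn
      rw [Nat.cast_one, div_one]
      ring
    rw [Finset.sum_congr rfl e2, ← Finset.sum_div, coef_eq W h0 x hx 1 le_rfl]
    simp only [Nat.cast_one, div_one]
    rfl
  have iES : IntervalIntegrable (fun t => E t * S t) volume 0 1 := by
    refine ii_bdd _ (hEm.mul hSm) (B * 1) fun t ht => ?_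
    rw [abs_mul]
    exact mul_le_mul (hEb t ht) (hSb t) (abs_nonneg _) hB0
  have iE : IntervalIntegrable (fun t => E t ^ 2) volume 0 1 := by
    refine ii_bdd _ (hEm.pow_const 2) (B ^ 2) fun t ht => ?_
    rw [abs_pow]
    exact pow_le_pow_left₀ (abs_nonneg _) (hEb t ht) 2
  have hpos : 0 ≤ ∫ t in (0:ℝ)..1, (E t - J * S t) ^ 2 :=
    intervalIntegral.integral_nonneg zero_le_one fun t _ => sq_nonneg _
  have hle : ∫ t in (0:ℝ)..1, (E t - J * S t) ^ 2 ≤ ∫ t in (0:ℝ)..1, (E t ^ 2 - 2 * J * (E t * S t) + J ^ 2) := by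
    refine intervalIntegral.integral_mono_on zero_le_one ?_ ?_ fun t _ => ?_
    · refine ii_bdd _ ((hEm.sub (hSm.const_mul J)).pow_const 2) ((B + |J|) ^ 2) fun t ht => ?_
      rw [abs_pow]
      refine pow_le_pow_left₀ (abs_nonneg _) ?_ 2
      have h5 := abs_sub (E t) (J * S t)
      have h6 : |J * S t| ≤ |J| := by
        rw [abs_mul]
        exact mul_le_of_le_one_right (abs_nonneg _) (hSb t)
      linarith [hEb t ht]
    · exact (iE.sub (iES.const_mul (2 * J))).add intervalIntegrable_const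
    · have h7 : S t ^ 2 ≤ 1 := by
        rw [← sq_abs]
        have := hSb t
        have h8 := abs_nonneg (S t)
        nlinarith
      nlinarith [sq_nonneg J, mul_nonneg (sq_nonneg J) (sub_nonneg.2 h7)]
  rw [intervalIntegral.integral_add (iE.sub (iES.const_mul (2 * J))) intervalIntegrable_const,
    intervalIntegral.integral_sub iE (iES.const_mul (2 * J)), intervalIntegral.integral_const_mul,
    intervalIntegral.integral_const, ← hJ] at hle
  simp only [sub_zero, smul_eq_mul, one_mul] at hle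
  have hJ2 : J ^ 2 ≤ C * x ^ (2 * r) := by
    have := hC x hx
    nlinarith
  have hxr : x ^ (2 * r) = (x ^ r) ^ 2 := by
    rw [← Real.rpow_natCast (x ^ r) 2, ← Real.rpow_mul hx0.le]
    congr 1
    push_cast
    ring
  have hxp : 0 < x ^ r := Real.rpow_pos_of_pos hx0 _
  have hJa : |J| ≤ √C * x ^ r := by
    rw [hxr] at hJ2
    have h9 : |J| ≤ √(C * (x ^ r) ^ 2) := Real.abs_le_sqrt hJ2
    rwa [Real.sqrt_mul' _ (sq_nonneg _), Real.sqrt_sq hxp.le] at h9
  have hpi : 0 < 2 * Real.pi := by positivity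
  have e9 : ∑ n ∈ Finset.Icc 1 N, aM n * W (x / n) = 2 * Real.pi * J := by
    rw [hJv]
    field_simp
  rw [e9, abs_mul, abs_of_pos hpi]
  calc 2 * Real.pi * |J| ≤ 2 * Real.pi * (√C * x ^ r) := by gcongr
    _ = _ := by ring

end

end H353
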