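import Pool.Agent.H353R3.S7
import Pool.Agent.H295R2.M

open MeasureTheory Filter Topology Set
open scoped ContDiff
open ArithmeticFunction (vonMangoldt)
open H353.FB

namespace H353

noncomputable section

variable {A : ℝ} {W : ℝ → ℝ}

theorem cut_bdd (hA : 1 < A) (hW : CutW A W) : ∃ B : ℝ, 1 ≤ B ∧ ∀ y, |W y| ≤ B := by
  obtain ⟨B, hB1, hB⟩ := (cut_ST hA hW).bdd
  refine ⟨B, hB1, fun y => ?_⟩
  by_cases hy : y ≤ 0
  · rw [hW.2.1 y (by linarith), abs_zero]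
    linarith
  · have := hB (Real.log y)
    rwa [Real.exp_log (not_le.1 hy)] at this

theorem exists_mono_cut (A : ℝ) (hA : 1 < A) : ∃ W : ℝ → ℝ, CutW A W ∧ Monotone W := by
  have hL : 0 < Real.log A := Real.log_pos hA
  have hf := Ph_ST (Real.log A) hL
  refine ⟨wg (Ph (Real.log A)), ?_, wg_mono hf (Ph_mono _ hL)⟩
  have := wg_cut hf
  rwa [Real.exp_log (by linarith)] at this

/-- for a monotone cutoff the smoothed sum is not larger than the sharp one -/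
theorem sharp_to_smooth (θ : ℝ) (hθ : 0 ≤ θ) (hW : CutW A W) (hm : Monotone W) (C : ℝ)
    (hM : ∀ x : ℝ, 1 ≤ x → |∑ n ∈ Finset.Icc 1 ⌊x⌋₊, (ArithmeticFunction.moebius n : ℝ)| ≤ C * x ^ θ) :
    bdW aM θ W := by
  have hC0 : 0 ≤ C := by
    have := (abs_nonneg _).trans (hM 1 le_rfl)
    simpa using this
  refine ⟨C, fun x hx => ?_⟩
  have hx0 : 0 < x := by linarith
  set N := ⌊x⌋₊ with hN
  have e1 : ∑ n ∈ Finset.Icc 1 N, aM n * W (x / n) =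
      ∑ n ∈ Finset.Icc 1 N, wn W x n * Mx ((n : ℝ) / (1:ℕ)) := by
    rw [coef_eq W hW.2.1 x hx 1 le_rfl]
    simp only [Nat.cast_one, div_one]
    rfl
  have hw0 : ∀ n ∈ Finset.Icc 1 N, 0 ≤ wn W x n := by
    intro n hn
    rw [Finset.mem_Icc] at hn
    have hn0 : (0:ℝ) < n := by exact_mod_cast hn.1
    unfold wn
    rw [sub_nonneg]
    refine hm ?_
    exact div_le_div_of_nonneg_left hx0.le hn0 (by linarith)
  have hW1 : ∀ y, W y ≤ 1 := by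
    intro y
    have := hm (le_max_left y A)
    rwa [hW.2.2 _ (le_max_right y A)] at this
  have hsum : ∑ n ∈ Finset.Icc 1 N, wn W x n ≤ 1 := by
    have e := wn_tele W x 1 N (by omega)
    have e3 : W (x / ((N : ℝ) + 1)) = 0 := by
      apply hW.2.1
      have hN1 : (0:ℝ) < (N:ℝ) + 1 := by positivity
      rw [div_le_one hN1]
      exact (Nat.lt_floor_add_one x).le
    rw [e3, sub_zero] at e
    rw [e]
    exact hW1 _
  rw [e1]
  calc |∑ n ∈ Finset.Icc 1 N, wn W x n * Mx ((n : ℝ) / (1:ℕ))|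
      ≤ ∑ n ∈ Finset.Icc 1 N, |wn W x n * Mx ((n : ℝ) / (1:ℕ))| := Finset.abs_sum_le_sum_abs _ _
    _ ≤ ∑ n ∈ Finset.Icc 1 N, wn W x n * (C * x ^ θ) := by
        refine Finset.sum_le_sum fun n hn => ?_
        have h0 := hw0 n hn
        rw [Finset.mem_Icc] at hn
        have hn1 : (1:ℝ) ≤ n := by exact_mod_cast hn.1
        have hnx : (n:ℝ) ≤ x := (Nat.le_floor_iff hx0.le).1 hn.2
        rw [abs_mul, abs_of_nonneg h0]
        refine mul_le_mul_of_nonneg_left ?_ h0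
        have h1 := hM n hn1
        have h2 : Mx ((n : ℝ) / (1:ℕ)) = ∑ k ∈ Finset.Icc 1 ⌊(n:ℝ)⌋₊, (ArithmeticFunction.moebius k : ℝ) := by
          unfold Mx H353.FB.mu
          rw [Nat.cast_one, div_one]
        rw [h2]
        refine h1.trans ?_
        refine mul_le_mul_of_nonneg_left ?_ hC0
        exact Real.rpow_le_rpow (by linarith) hnx hθ
    _ = (∑ n ∈ Finset.Icc 1 N, wn W x n) * (C * x ^ θ) := by rw [Finset.sum_mul]
    _ ≤ 1 * (C * x ^ θ) := by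
        have : 0 ≤ C * x ^ θ := by positivity
        exact mul_le_mul_of_nonneg_right hsum this
    _ = _ := one_mul _

/-- primes against the von Mangoldt function -/
theorem primes_diff (θ : ℝ) (h1 : 1 / 2 < θ) (hA : 1 < A) (hW : CutW A W) :
    ∃ D : ℝ, ∀ x : ℝ, 1 ≤ x →
    |(∑ p ∈ (Finset.Icc 1 ⌊x⌋₊).filter Nat.Prime, Real.log p * W (x / p) -
      ∑ n ∈ Finset.Icc 1 ⌊x⌋₊, W (x / n)) - ∑ n ∈ Finset.Icc 1 ⌊x⌋₊, aL n * W (x / n)| ≤ D * x ^ θ := by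
  obtain ⟨B, hB1, hB⟩ := cut_bdd hA hW
  set δ : ℝ := θ - 1 / 2 with hδ
  have hδ0 : 0 < δ := by rw [hδ]; linarith
  refine ⟨B * (2 * (1 / δ)), fun x hx => ?_⟩
  have hx0 : 0 < x := by linarith
  have hsplit : (∑ p ∈ (Finset.Icc 1 ⌊x⌋₊).filter Nat.Prime, Real.log p * W (x / p) -
      ∑ n ∈ Finset.Icc 1 ⌊x⌋₊, W (x / n)) - ∑ n ∈ Finset.Icc 1 ⌊x⌋₊, aL n * W (x / n) =
      - ∑ n ∈ (Finset.Icc 1 ⌊x⌋₊).filter (fun n => ¬ n.Prime), vonMangoldt n * W (x / n) := by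
    have e0 : ∑ n ∈ Finset.Icc 1 ⌊x⌋₊, aL n * W (x / n) =
        ∑ n ∈ Finset.Icc 1 ⌊x⌋₊, (vonMangoldt n - 1) * W (x / n) := by
      refine Finset.sum_congr rfl fun n hn => ?_
      rw [Finset.mem_Icc] at hn
      unfold aL
      rw [if_neg (by omega)]
    have e1 : ∑ p ∈ (Finset.Icc 1 ⌊x⌋₊).filter Nat.Prime, Real.log p * W (x / p) =
        ∑ p ∈ (Finset.Icc 1 ⌊x⌋₊).filter Nat.Prime, vonMangoldt p * W (x / p) := by
      refine Finset.sum_congr rfl fun p hp => ?_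
      rw [Finset.mem_filter] at hp
      rw [ArithmeticFunction.vonMangoldt_apply_prime hp.2]
    have e2 := Finset.sum_filter_add_sum_filter_not (Finset.Icc 1 ⌊x⌋₊) Nat.Prime
      (fun n => vonMangoldt n * W (x / n))
    rw [e0]
    simp_rw [sub_mul, one_mul]
    rw [Finset.sum_sub_distrib, ← e2, e1]
    ring
  rw [hsplit, abs_neg]
  have hnp : |∑ n ∈ (Finset.Icc 1 ⌊x⌋₊).filter (fun n => ¬ n.Prime), vonMangoldt n * W (x / n)| ≤
      B * (2 * √x * Real.log x) := by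
    have e3 := Chebyshev.psi_sub_theta_eq_sum_not_prime x
    have e4 := Chebyshev.psi_sub_theta_le hx
    have hIoc : Finset.Ioc 0 ⌊x⌋₊ = Finset.Icc 1 ⌊x⌋₊ := by
      ext n
      simp only [Finset.mem_Ioc, Finset.mem_Icc]
      omega
    rw [hIoc] at e3
    rw [e3] at e4
    refine le_trans ?_ (mul_le_mul_of_nonneg_left e4 (by linarith))
    rw [Finset.mul_sum]
    refine (Finset.abs_sum_le_sum_abs _ _).trans (Finset.sum_le_sum fun n _ => ?_)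
    have hv := ArithmeticFunction.vonMangoldt_nonneg (n := n)
    rw [abs_mul, abs_of_nonneg hv, mul_comm B]
    exact mul_le_mul_of_nonneg_left (hB _) hv
  have hlog : Real.log x ≤ x ^ δ / δ := Real.log_le_rpow_div hx0.le hδ0
  have hsq : √x * x ^ δ = x ^ θ := by
    rw [Real.sqrt_eq_rpow, ← Real.rpow_add hx0]
    congr 1
    rw [hδ]
    ring
  have h5 : 2 * √x * Real.log x ≤ 2 * (1 / δ) * x ^ θ := by
    rw [← hsq]
    have : 0 ≤ √x := Real.sqrt_nonneg x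
    calc 2 * √x * Real.log x ≤ 2 * √x * (x ^ δ / δ) := by gcongr
      _ = 2 * (1 / δ) * (√x * x ^ δ) := by ring
  have hB0 : 0 ≤ B := by linarith
  calc _ ≤ B * (2 * √x * Real.log x) := hnp
    _ ≤ B * (2 * (1 / δ) * x ^ θ) := mul_le_mul_of_nonneg_left h5 hB0
    _ = _ := by ring

/-- bound for primes -/
def bdP (θ : ℝ) (W : ℝ → ℝ) : Prop :=
  ∃ C : ℝ, ∀ x : ℝ, 1 ≤ x → |∑ p ∈ (Finset.Icc 1 ⌊x⌋₊).filter Nat.Prime, Real.log p * W (x / p) -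
      ∑ n ∈ Finset.Icc 1 ⌊x⌋₊, W (x / n)| ≤ C * x ^ θ

theorem bdP_iff (θ : ℝ) (h1 : 1 / 2 < θ) (hA : 1 < A) (hW : CutW A W) : bdP θ W ↔ bdW aL θ W := by
  obtain ⟨D, hD⟩ := primes_diff θ h1 hA hW
  constructor
  · rintro ⟨C, hC⟩
    refine ⟨C + D, fun x hx => ?_⟩
    have a1 := hD x hx
    have a2 := hC x hx
    rw [abs_le] at a1 a2 ⊢
    constructor <;> nlinarith [a1.1, a1.2, a2.1, a2.2]
  · rintro ⟨C, hC⟩
    refine ⟨C + D, fun x hx => ?_⟩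
    have a1 := hD x hx
    have a2 := hC x hx
    rw [abs_le] at a1 a2 ⊢
    constructor <;> nlinarith [a1.1, a1.2, a2.1, a2.2]

/-- zero-free half planes and the Mertens function -/
theorem mertens_of_free (θ : ℝ) (h0 : 1 / 2 ≤ θ) (hz : ∀ s : ℂ, θ < s.re → riemannZeta s ≠ 0) (θ' : ℝ)
    (hθ' : θ < θ') : ∃ C' : ℝ, ∀ x : ℝ, 1 ≤ x →
        |∑ n ∈ Finset.Icc 1 ⌊x⌋₊, (ArithmeticFunction.moebius n : ℝ)| ≤ C' * x ^ θ' := by
  by_cases h2 : θ < 2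
  · have hZs : ∀ s : ℂ, θ < s.re → Pool.Agent.H295R2.Zs s ≠ 0 := by
      intro s hs
      by_cases h : s = 1
      · rw [h]
        unfold Pool.Agent.H295R2.Zs
        simp
      · rw [← Pool.Agent.H295R2.Zs_eq h]
        exact mul_ne_zero (sub_ne_zero.2 h) (hz s hs)
    have hm : θ < min θ' 2 := lt_min hθ' h2
    obtain ⟨C', _, hC'⟩ := Pool.Agent.H295R2.mertens_bound (by linarith) hZs hm (min_le_right _ _)
    have hC0 : 0 ≤ C' := by
      have := (abs_nonneg _).trans (hC' 1 le_rfl)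
      simpa using this
    refine ⟨C', fun x hx => (hC' x hx).trans ?_⟩
    exact mul_le_mul_of_nonneg_left (Real.rpow_le_rpow_of_exponent_le hx (min_le_left _ _)) hC0
  · refine ⟨1, fun x hx => ?_⟩
    have h5 := abs_Mx_le (y := x) (by linarith)
    have h6 : x ≤ x ^ θ' := by
      calc x = x ^ (1:ℝ) := (Real.rpow_one x).symm
        _ ≤ x ^ θ' := Real.rpow_le_rpow_of_exponent_le hx (by linarith)
    unfold Mx H353.FB.mu at h5
    linarith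

/-- the theorem for the Möbius function -/
theorem main_mu :
    (∀ θ A : ℝ, 1 / 2 < θ → θ < 1 → 1 < A → ∃ W, CutW A W ∧ bdW aM θ W) ∧
    (∃ A : ℝ → ℝ, Tendsto A (𝓝[<] 1) (𝓝 1) ∧ ∀ θ : ℝ, 1 / 2 < θ → θ < 1 →
      ∃ W, CutW (A θ) W ∧ Monotone W ∧ bdW aM θ W) ∧
    ∀ θ₀ : ℝ, 1 / 2 ≤ θ₀ → θ₀ < 1 →
      ((∀ θ A : ℝ, θ₀ < θ → θ < 1 → 1 < A → ∃ W, CutW A W ∧ Monotone W ∧ bdW aM θ W) ↔
        ∀ θ : ℝ, θ₀ < θ → ∃ C : ℝ, ∀ x : ℝ, 1 ≤ x →
          |∑ n ∈ Finset.Icc 1 ⌊x⌋₊, (ArithmeticFunction.moebius n : ℝ)| ≤ C * x ^ θ) := by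
  refine ⟨fun θ A h1 h2 hA => ?_, ⟨AA, AA_tendsto, fun θ h1 h2 => ?_⟩, fun θ₀ h0 h1 => ⟨fun h => ?_, fun h => ?_⟩⟩
  · obtain ⟨W, a, b, _⟩ := W_signed A θ hA h1 h2
    exact ⟨W, a, b⟩
  · obtain ⟨W, a, b, c, _⟩ := W_mono θ h1 h2
    exact ⟨W, a, b, c⟩
  · refine mertens_of_free θ₀ h0 fun s hs => ?_
    by_cases h2 : s.re < 1
    · have h3 : θ₀ < (θ₀ + s.re) / 2 := by linarith
      refine W_free ((θ₀ + s.re) / 2) (by linarith) (by linarith) (fun A hA => ?_) s (by linarith)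
      obtain ⟨W, a, b, c⟩ := h ((θ₀ + s.re) / 2) A h3 (by linarith) hA
      exact ⟨W, a, b, Or.inl c⟩
    · exact riemannZeta_ne_zero_of_one_le_re (not_lt.1 h2)
  · intro θ A h2 h3 hA
    obtain ⟨W, hW, hm⟩ := exists_mono_cut A hA
    obtain ⟨C, hC⟩ := h θ h2
    exact ⟨W, hW, hm, sharp_to_smooth θ (by linarith) hW hm C hC⟩

/-- the theorem for primes -/
theorem main_pr :
    (∀ θ A : ℝ, 1 / 2 < θ → θ < 1 → 1 < A → ∃ W, CutW A W ∧ bdP θ W) ∧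
    (∃ A : ℝ → ℝ, Tendsto A (𝓝[<] 1) (𝓝 1) ∧ ∀ θ : ℝ, 1 / 2 < θ → θ < 1 →
      ∃ W, CutW (A θ) W ∧ Monotone W ∧ bdP θ W) ∧
    ∀ θ₀ : ℝ, 1 / 2 ≤ θ₀ → θ₀ < 1 →
      ((∀ θ A : ℝ, θ₀ < θ → θ < 1 → 1 < A → ∃ W, CutW A W ∧ Monotone W ∧ bdP θ W) ↔
        ∀ s : ℂ, θ₀ < s.re → riemannZeta s ≠ 0) := by
  refine ⟨fun θ A h1 h2 hA => ?_, ⟨AA, AA_tendsto, fun θ h1 h2 => ?_⟩, fun θ₀ h0 h1 => ⟨fun h => ?_, fun h => ?_⟩⟩
  · obtain ⟨W, a, _, b⟩ := W_signed A θ hA h1 h2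
    exact ⟨W, a, (bdP_iff θ h1 hA a).2 b⟩
  · obtain ⟨W, a, b, _, c⟩ := W_mono θ h1 h2
    have hA : 1 < AA θ := by
      unfold AA
      rw [Real.one_lt_exp_iff]
      have := HT_nonneg (sg θ)
      linarith
    exact ⟨W, a, b, (bdP_iff θ h1 hA a).2 c⟩
  · intro s hs
    by_cases h2 : s.re < 1
    · have h3 : θ₀ < (θ₀ + s.re) / 2 := by linarith
      refine W_free ((θ₀ + s.re) / 2) (by linarith) (by linarith) (fun A hA => ?_) s (by linarith)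
      obtain ⟨W, a, b, c⟩ := h ((θ₀ + s.re) / 2) A h3 (by linarith) hA
      exact ⟨W, a, b, Or.inr ((bdP_iff _ (by linarith) hA a).1 c)⟩
    · exact riemannZeta_ne_zero_of_one_le_re (not_lt.1 h2)
  · intro θ A h2 h3 hA
    obtain ⟨W, a, b, _, c⟩ := W_mono_of_free A ((θ₀ + θ) / 2) θ hA (by linarith) (by linarith) h3
      (fun s hs _ => h s (by linarith))
    exact ⟨W, a, b, (bdP_iff θ (by linarith) hA a).2 c⟩

/-- bound for the averaged Farey discrepancy -/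
def bdF (r : ℝ) (W : ℝ → ℝ) : Prop :=
  ∃ C : ℝ, ∀ x : ℝ, 1 ≤ x →
      ∫ t in (0:ℝ)..1, (∑ n ∈ Finset.Icc 1 ⌊x⌋₊, (W (x / n) - W (x / (n + 1))) * dsc n t) ^ 2 ≤
      C * x ^ (2 * r)

theorem bdF_iff (r : ℝ) (h1 : 1 / 2 < r) (hA : 1 < A) (hW : CutW A W) : bdF r W ↔ bdW aM r W := by
  constructor
  · rintro ⟨C, hC⟩
    exact farey_conv r W hW.2.1 C hC
  · rintro ⟨C, hC⟩
    obtain ⟨B, hB1, hB⟩ := cut_bdd hA hW
    exact farey_main2 r h1 W hW.2.1 B hB1 hB C hC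

/-- the theorem for Farey fractions -/
theorem main_fa :
    (∀ r A : ℝ, 1 / 2 < r → r < 1 → 1 < A → ∃ W, CutW A W ∧ bdF r W) ∧
    (∃ A : ℝ → ℝ, Tendsto A (𝓝[<] 1) (𝓝 1) ∧ ∀ r : ℝ, 1 / 2 < r → r < 1 →
      ∃ W, CutW (A r) W ∧ Monotone W ∧ bdF r W) ∧
    ((∀ r A : ℝ, 1 / 2 < r → r < 1 → 1 < A → ∃ W, CutW A W ∧ Monotone W ∧ bdF r W) ↔ RiemannHypothesis) := by
  refine ⟨fun r A h1 h2 hA => ?_, ⟨AA, AA_tendsto, fun r h1 h2 => ?_⟩, ⟨fun h => ?_, fun h => ?_⟩⟩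
  · obtain ⟨W, a, b, _⟩ := W_signed A r hA h1 h2
    exact ⟨W, a, (bdF_iff r h1 hA a).2 b⟩
  · obtain ⟨W, a, b, c, _⟩ := W_mono r h1 h2
    have hA : 1 < AA r := by
      unfold AA
      rw [Real.one_lt_exp_iff]
      have := HT_nonneg (sg r)
      linarith
    exact ⟨W, a, b, (bdF_iff r h1 hA a).2 c⟩
  · refine RH_of fun s hs _ => ?_
    by_cases h2 : s.re < 1
    · refine W_free ((1 / 2 + s.re) / 2) (by linarith) (by linarith) (fun A hA => ?_) s (by linarith)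
      obtain ⟨W, a, b, c⟩ := h ((1 / 2 + s.re) / 2) A (by linarith) (by linarith) hA
      exact ⟨W, a, b, Or.inl ((bdF_iff _ (by linarith) hA a).1 c)⟩
    · exact riemannZeta_ne_zero_of_one_le_re (not_lt.1 h2)
  · intro r A h1 h2 hA
    have hfree : ∀ s : ℂ, (1 / 2 + r) / 2 ≤ s.re → s ≠ 1 → riemannZeta s ≠ 0 := by
      intro s hs hs1 hz
      have := h s hz (by
        rintro ⟨n, hn⟩
        have h5 := congrArg Complex.re hn
        simp at h5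
        have : (0:ℝ) ≤ n := Nat.cast_nonneg n
        linarith) hs1
      linarith
    obtain ⟨W, a, b, c, _⟩ := W_mono_of_free A ((1 / 2 + r) / 2) r hA (by linarith) (by linarith) h2 hfree
    exact ⟨W, a, b, (bdF_iff r h1 hA a).2 c⟩

end

end H353
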